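import Pool.Agent.Y686.TW.Mestre

/-!
# Windows of positive measure: the final equivalences
-/

set_option autoImplicit false

open MeasureTheory Filter Topology Set Classical
open CongruenceSubgroup
open scoped MatrixGroups
open Pool.Agent.W263.BSD

namespace Pool.Agent.Y686.TW

variable {a b : ℤ} {F : ℂ → ℂ} {r : ℕ}

/-- `S(x) = (∑_{p ≤ x} a_p log p / p) / log x` -/
noncomputable def ms (a b : ℤ) (x : ℝ) : ℝ := mes a b (Real.log x)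

theorem ms_exp (u : ℝ) : ms a b (Real.exp u) = mes a b u := by
  unfold ms
  rw [Real.log_exp]

theorem ms_mul {h : ℝ} (hh : 0 < h) (u : ℝ) : ms a b (h * Real.exp u) = mes a b (u + Real.log h) := by
  rw [exp_mul_add hh, ms_exp]

theorem ms_pow (l u : ℝ) : ms a b (Real.exp u ^ l) = mes a b (l * u) := by
  rw [exp_rpow', ms_exp]

theorem ms_tendsto (H : Full a b F r) (hz : ∀ s : ℂ, 1 < s.re → F s ≠ 0)
    (h : Tendsto (dvu a b F r) atTop (𝓝 0)) : Tendsto (ms a b) atTop (𝓝 (1 / 2 - r)) := by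
  have h1 := ((mes_dvu H hz).add h.neg).add_const (1 / 2 - (r : ℝ))
  rw [neg_zero, add_zero, zero_add] at h1
  have h2 : Tendsto (mes a b) atTop (𝓝 (1 / 2 - r)) := h1.congr fun u => by ring
  exact h2.comp Real.tendsto_log_atTop

/-- the additive form for the sums -/
theorem ms_of_add (H : Full a b F r) {S : Set ℝ} (hS : S ⊆ Ioi 1) (hpos : volume S ≠ 0)
    (hK : ∀ h ∈ S, ∀ ε : ℝ, 0 < ε → ∀ᶠ x : ℝ in atTop, ms a b x ≤ ms a b (h * x) + ε) :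
    (∀ s : ℂ, 1 < s.re → F s ≠ 0) ∧ Tendsto (dvu a b F r) atTop (𝓝 0) := by
  refine mes_add_lower H (log_image_pos hS) (vol_log_image hS hpos) ?_
  rintro _ ⟨h, hh, rfl⟩ ε hε
  filter_upwards [ev_exp.1 (hK h hh ε hε)] with u hu
  rwa [ms_exp, ms_mul (lt_trans one_pos (hS hh))] at hu

theorem ms_of_add_upper (H : Full a b F r) (hreal : ∀ s : ℝ, 1 < s → F s ≠ 0) {S : Set ℝ}
    (hS : S ⊆ Ioi 1) (hpos : volume S ≠ 0)
    (hK : ∀ h ∈ S, ∀ ε : ℝ, 0 < ε → ∀ᶠ x : ℝ in atTop, ms a b (h * x) ≤ ms a b x + ε) :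
    (∀ s : ℂ, 1 < s.re → F s ≠ 0) ∧ Tendsto (dvu a b F r) atTop (𝓝 0) := by
  refine mes_add_upper H hreal (log_image_pos hS) (vol_log_image hS hpos) ?_
  rintro _ ⟨h, hh, rfl⟩ ε hε
  filter_upwards [ev_exp.1 (hK h hh ε hε)] with u hu
  rwa [ms_exp, ms_mul (lt_trans one_pos (hS hh))] at hu

theorem ms_of_mul (H : Full a b F r) {S : Set ℝ} (hS : S ⊆ Ioi 1) (hpos : volume S ≠ 0)
    (hK : ∀ l ∈ S, ∀ ε : ℝ, 0 < ε → ∀ᶠ x : ℝ in atTop, ms a b x ≤ ms a b (x ^ l) + ε) :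
    (∀ s : ℂ, 1 < s.re → F s ≠ 0) ∧ Tendsto (dvu a b F r) atTop (𝓝 0) := by
  refine mes_mul_lower H hS hpos fun l hl ε hε => ?_
  filter_upwards [ev_exp.1 (hK l hl ε hε)] with u hu
  rwa [ms_exp, ms_pow] at hu

theorem ms_of_mul_upper (H : Full a b F r) (hreal : ∀ s : ℝ, 1 < s → F s ≠ 0) {S : Set ℝ}
    (hS : S ⊆ Ioi 1) (hpos : volume S ≠ 0)
    (hK : ∀ l ∈ S, ∀ ε : ℝ, 0 < ε → ∀ᶠ x : ℝ in atTop, ms a b (x ^ l) ≤ ms a b x + ε) :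
    (∀ s : ℂ, 1 < s.re → F s ≠ 0) ∧ Tendsto (dvu a b F r) atTop (𝓝 0) := by
  refine mes_mul_upper H hreal hS hpos fun l hl ε hε => ?_
  filter_upwards [ev_exp.1 (hK l hl ε hε)] with u hu
  rwa [ms_exp, ms_pow] at hu

theorem ms_incr {c : ℝ} (h : Tendsto (ms a b) atTop (𝓝 c)) {φ : ℝ → ℝ} (hφ : Tendsto φ atTop atTop)
    {ε : ℝ} (hε : 0 < ε) : ∀ᶠ x : ℝ in atTop, ms a b x ≤ ms a b (φ x) + ε ∧
      ms a b (φ x) ≤ ms a b x + ε := by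
  have h1 := (h.comp hφ).sub h
  rw [sub_self] at h1
  filter_upwards [h1.eventually (Metric.ball_mem_nhds 0 hε)] with x hx
  rw [Real.dist_eq, sub_zero] at hx
  have := abs_lt.1 hx
  simp only [Function.comp_apply] at this
  constructor <;> linarith

/-- **The equivalences.** -/
theorem full_tfae (H : Full a b F r) : List.TFAE [
    ∃ C ρ : ℝ, C ≠ 0 ∧ Tendsto (fun x : ℝ => bsdProduct a b x / Real.log x ^ ρ) atTop (𝓝 C),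
    Tendsto (fun x : ℝ => bsdProduct a b x / Real.log x ^ r) atTop (𝓝 (TC F r)),
    Tendsto (ms a b) atTop (𝓝 (1 / 2 - r)),
    ∃ S ⊆ Ioi (1 : ℝ), volume S ≠ 0 ∧ ∀ h ∈ S, ∀ ε : ℝ, 0 < ε → ∀ᶠ x : ℝ in atTop,
      bsdProduct a b (h * x) ≤ (1 + ε) * bsdProduct a b x,
    ∃ S ⊆ Ioi (1 : ℝ), volume S ≠ 0 ∧ ∀ l ∈ S, ∀ ε : ℝ, 0 < ε → ∀ᶠ x : ℝ in atTop,
      bsdProduct a b (x ^ l) ≤ (l ^ r + ε) * bsdProduct a b x,
    ∃ S ⊆ Ioi (1 : ℝ), volume S ≠ 0 ∧ ∀ l ∈ S, ∃ c : ℝ,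
      Tendsto (fun x : ℝ => bsdProduct a b (x ^ l) / bsdProduct a b x) atTop (𝓝 c),
    ∃ S ⊆ Ioi (1 : ℝ), volume S ≠ 0 ∧ ∀ h ∈ S, ∀ ε : ℝ, 0 < ε → ∀ᶠ x : ℝ in atTop,
      ms a b x ≤ ms a b (h * x) + ε,
    ∃ S ⊆ Ioi (1 : ℝ), volume S ≠ 0 ∧ ∀ l ∈ S, ∀ ε : ℝ, 0 < ε → ∀ᶠ x : ℝ in atTop,
      ms a b x ≤ ms a b (x ^ l) + ε] := by
  have hvol : volume (Ioi (1 : ℝ)) ≠ 0 := by simp
  have T := prod_tfae H.toHyp
  tfae_have 1 ↔ 2 := T.out 0 1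
  tfae_have 2 ↔ 4 := T.out 1 2
  tfae_have 2 ↔ 5 := T.out 1 3
  tfae_have 2 ↔ 6 := T.out 1 4
  tfae_have 4 → 3 := by
    rintro ⟨S, hS, hpos, hK⟩
    obtain ⟨hz, hd⟩ := of_add H.toHyp hS hpos hK
    exact ms_tendsto H hz hd
  tfae_have 3 → 7 := fun h => ⟨Ioi 1, subset_rfl, hvol, fun k hk ε hε =>
    (ms_incr h (tendsto_id.const_mul_atTop (lt_trans one_pos hk)) hε).mono fun _ hx => hx.1⟩
  tfae_have 3 → 8 := fun h => ⟨Ioi 1, subset_rfl, hvol, fun l hl ε hε =>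
    (ms_incr h (tendsto_rpow_atTop (lt_trans one_pos hl)) hε).mono fun _ hx => hx.1⟩
  tfae_have 7 → 2 := by
    rintro ⟨S, hS, hpos, hK⟩
    exact tendsto_of_dvu H.toHyp (ms_of_add H hS hpos hK).2
  tfae_have 8 → 2 := by
    rintro ⟨S, hS, hpos, hK⟩
    exact tendsto_of_dvu H.toHyp (ms_of_mul H hS hpos hK).2
  tfae_finish

/-- **The equivalences from below, without real zeros.** -/
theorem lower_tfae (H : Full a b F r) (hreal : ∀ s : ℝ, 1 < s → F s ≠ 0) : List.TFAE [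
    Tendsto (fun x : ℝ => bsdProduct a b x / Real.log x ^ r) atTop (𝓝 (TC F r)),
    ∃ S ⊆ Ioi (1 : ℝ), volume S ≠ 0 ∧ ∀ h ∈ S, ∀ ε : ℝ, 0 < ε → ∀ᶠ x : ℝ in atTop,
      bsdProduct a b x ≤ (1 + ε) * bsdProduct a b (h * x),
    ∃ S ⊆ Ioi (1 : ℝ), volume S ≠ 0 ∧ ∀ l ∈ S, ∀ ε : ℝ, 0 < ε → ∀ᶠ x : ℝ in atTop,
      (l ^ r - ε) * bsdProduct a b x ≤ bsdProduct a b (x ^ l),
    ∃ S ⊆ Ioi (1 : ℝ), volume S ≠ 0 ∧ ∀ h ∈ S, ∀ ε : ℝ, 0 < ε → ∀ᶠ x : ℝ in atTop,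
      ms a b (h * x) ≤ ms a b x + ε,
    ∃ S ⊆ Ioi (1 : ℝ), volume S ≠ 0 ∧ ∀ l ∈ S, ∀ ε : ℝ, 0 < ε → ∀ᶠ x : ℝ in atTop,
      ms a b (x ^ l) ≤ ms a b x + ε] := by
  have hvol : volume (Ioi (1 : ℝ)) ≠ 0 := by simp
  have T := prod_tfae H.toHyp
  have c6 := T.out 1 5
  have c7 := T.out 1 6
  have hms : Tendsto (fun x : ℝ => bsdProduct a b x / Real.log x ^ r) atTop (𝓝 (TC F r)) →
      Tendsto (ms a b) atTop (𝓝 (1 / 2 - r)) := fun h => ((full_tfae H).out 1 2).1 h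
  tfae_have 1 → 2 := fun h => (c6.1 h).2
  tfae_have 2 → 1 := fun h => c6.2 ⟨hreal, h⟩
  tfae_have 1 → 3 := fun h => (c7.1 h).2
  tfae_have 3 → 1 := fun h => c7.2 ⟨hreal, h⟩
  tfae_have 1 → 4 := fun h => ⟨Ioi 1, subset_rfl, hvol, fun k hk ε hε =>
    (ms_incr (hms h) (tendsto_id.const_mul_atTop (lt_trans one_pos hk)) hε).mono fun _ hx => hx.2⟩
  tfae_have 1 → 5 := fun h => ⟨Ioi 1, subset_rfl, hvol, fun l hl ε hε =>
    (ms_incr (hms h) (tendsto_rpow_atTop (lt_trans one_pos hl)) hε).mono fun _ hx => hx.2⟩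
  tfae_have 4 → 1 := by
    rintro ⟨S, hS, hpos, hK⟩
    exact tendsto_of_dvu H.toHyp (ms_of_add_upper H hreal hS hpos hK).2
  tfae_have 5 → 1 := by
    rintro ⟨S, hS, hpos, hK⟩
    exact tendsto_of_dvu H.toHyp (ms_of_mul_upper H hreal hS hpos hK).2
  tfae_finish

/-- the hypotheses hold for the newform of the curve -/
theorem full_of_newform {N : ℕ} [NeZero N] {f : CuspForm (Gamma0 N : Subgroup (GL (Fin 2) ℝ)) 2}
    (hf : Pool.Agent.TH941.Hecke f) (hΔ : 4 * a ^ 3 + 27 * b ^ 2 ≠ 0)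
    (hb : Pool.Agent.TH941.Belongs a b f) (hF : IsLSeries a b F) (hr : analyticOrderAt F 1 = r) :
    Full a b F r where
  disc := hΔ
  lser := hF
  rs := hf.rsSum_tendsto hΔ hb
  gr := by
    obtain ⟨C₀, κ, hg⟩ := Pool.Agent.TH270.MS.EQ.growth_F hΔ hF hf hb
    exact ⟨1 / 8, C₀, κ, by norm_num, hg⟩
  ord := hr
  tx := {
    disc := hΔ
    rs := hf.rsSum_tendsto hΔ hb
    gr := Pool.Agent.TH942.RZ.growth_newform hΔ hF hf hb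
    lser := hF
    ord := hr }
  mes := mes_add hf hΔ hb

end Pool.Agent.Y686.TW
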