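import Pool.Agent.Y686.TW.Core
import Pool.Agent.TH270.MS.EQ3
import Pool.Agent.TH270.MS.GrowthF
import Pool.Agent.TH949.TX.BSDW

/-!
# The Birch and Swinnerton-Dyer product: the exceptional set of the asymptotic formula
-/

set_option autoImplicit false

open MeasureTheory Filter Topology Set Classical
open Pool.Agent.TH942.ES
open Pool.Agent.W263.BSD
open Pool.Agent.TH270.MS
open Pool.Agent.TH270.MS.EQ

namespace Pool.Agent.Y686.TW

variable {a b : ℤ} {F : ℂ → ℂ}

/-- tails of the set where an integrable function is large -/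
theorem tail_of_integrable {φ : ℝ → ℝ} (h : IntegrableOn φ (Ioi 1)) {c : ℝ} (hc : 0 < c) :
    Tendsto (fun A : ℝ => volume {v : ℝ | A < v ∧ c ≤ φ v}) atTop (𝓝 0) := by
  set S : Set ℝ := {v : ℝ | c ≤ ‖φ v‖} with hS
  have hfin : (volume.restrict (Ioi (1 : ℝ))) S < ⊤ := h.measure_norm_ge_lt_top hc
  set ν := (volume.restrict (Ioi (1 : ℝ))).restrict S with hν
  have h1 : Tendsto (fun A : ℝ => ν (Ioi A)) atTop (𝓝 (ν (⋂ A : ℝ, Ioi A))) := by
    refine tendsto_measure_iInter_atTop (fun A => measurableSet_Ioi.nullMeasurableSet)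
      (fun x y hxy => Ioi_subset_Ioi hxy) ⟨0, ?_⟩
    rw [hν, Measure.restrict_apply measurableSet_Ioi]
    exact ((measure_mono inter_subset_right).trans_lt hfin).ne
  have h2 : (⋂ A : ℝ, Ioi A) = ∅ := by
    ext x
    simp only [mem_iInter, mem_Ioi, mem_empty_iff_false, iff_false, not_forall, not_lt]
    exact ⟨x, le_rfl⟩
  rw [h2, measure_empty] at h1
  refine tendsto_of_tendsto_of_tendsto_of_le_of_le' tendsto_const_nhds h1
    (Eventually.of_forall fun _ => zero_le) ?_
  filter_upwards [eventually_ge_atTop 1] with A hA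
  rw [hν, Measure.restrict_apply measurableSet_Ioi]
  have h3 : {v : ℝ | A < v ∧ c ≤ φ v} ⊆ (Ioi A ∩ S) ∩ Ioi 1 := by
    rintro v ⟨h4, h5⟩
    exact ⟨⟨h4, h5.trans (Real.le_norm_self _)⟩, lt_of_le_of_lt hA h4⟩
  exact (measure_mono h3).trans (Measure.le_restrict_apply _ _)

/-- `F(1 + w)` is a positive number for `w > 0` -/
theorem F_pos (hF : IsLSeries a b F) (hreal : ∀ s : ℝ, 1 < s → F s ≠ 0) {w : ℝ} (hw : 0 < w) :
    ∃ z : ℝ, 0 < z ∧ F (1 + w) = z := by
  have hcont : Continuous fun x : ℝ => (PhiF a b F x).re :=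
    Complex.continuous_re.comp ((PhiF_differentiable hF).continuous.comp Complex.continuous_ofReal)
  have hne : ∀ x : ℝ, 0 < x → (PhiF a b F x).re ≠ 0 := by
    intro x hx h0
    have h1 : PhiF a b F x = 0 := Complex.ext h0 (Pool.Agent.W189.ML.PhiF_real hF x)
    rw [Pool.Agent.W189.ML.PhiF_zero_iff x hx.le] at h1
    exact hreal (1 + x) (by linarith) h1
  have h2 : 0 < (PhiF a b F ((2 : ℝ) : ℂ)).re := by
    have := Pool.Agent.W189.ML.PhiF_two_pos hF
    push_cast
    exact this
  have hpos : 0 < (PhiF a b F w).re := by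
    by_contra hneg
    push Not at hneg
    have h3 : (0 : ℝ) ∈ uIcc (PhiF a b F w).re (PhiF a b F ((2 : ℝ) : ℂ)).re := by
      rw [uIcc_of_le (by linarith)]
      exact ⟨hneg, h2.le⟩
    obtain ⟨x, hx, hx0⟩ := intermediate_value_uIcc (hcont.continuousOn (s := uIcc w 2)) h3
    refine hne x ?_ hx0
    rcases le_total w 2 with h | h
    · rw [uIcc_of_le h] at hx
      linarith [hx.1]
    · rw [uIcc_of_ge h] at hx
      linarith [hx.1]
  have hsm : ∃ y : ℝ, 0 < y ∧ small a b w = y := by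
    unfold small
    have : ∀ s : Finset ℕ, ∃ y : ℝ, 0 < y ∧
        (∏ p ∈ s, if GoodPrime a b p then ef a b p w else 1) = (y : ℂ) := by
      intro s
      induction s using Finset.induction_on with
      | empty => exact ⟨1, one_pos, by simp⟩
      | insert p s hps ih =>
        obtain ⟨y, hy, he⟩ := ih
        rw [Finset.prod_insert hps, he]
        split_ifs with hg
        · obtain ⟨z, hz, he'⟩ := ef_real_pos (a := a) (b := b) hg.1 hw.le
          exact ⟨z * y, mul_pos hz hy, by rw [he']; push_cast; ring⟩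
        · exact ⟨y, hy, by rw [one_mul]⟩
    exact this _
  obtain ⟨y, hy, he⟩ := hsm
  refine ⟨(PhiF a b F w).re / y, div_pos hpos hy, ?_⟩
  have h5 : PhiF a b F w = ((PhiF a b F w).re : ℂ) :=
    Complex.ext (by simp) (by simpa using Pool.Agent.W189.ML.PhiF_real hF w)
  have h6 : F (1 + w) * small a b w = PhiF a b F w := rfl
  rw [he] at h6
  have hyc : (y : ℂ) ≠ 0 := by exact_mod_cast hy.ne'
  rw [Complex.ofReal_div, ← h5, eq_div_iff hyc]
  exact h6

/-- Goldfeld's constant -/
noncomputable def TC (F : ℂ → ℂ) (r : ℕ) : ℝ :=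
  √2 * Real.exp (r * Real.eulerMascheroniConstant) * (r.factorial : ℝ) / ‖iteratedDeriv r F 1‖

theorem TC_pos (hF : IsLSeries a b F) {r : ℕ} (hr : analyticOrderAt F 1 = r) : 0 < TC F r := by
  have h1 := (coeff_lim hF.1 hr).1
  have h3 : iteratedDeriv r F 1 ≠ 0 := by
    intro h
    rw [h, zero_div] at h1
    exact h1 rfl
  have h2 : (0 : ℝ) < r.factorial := by exact_mod_cast r.factorial_pos
  have h4 : 0 < ‖iteratedDeriv r F 1‖ := norm_pos_iff.2 h3
  unfold TC
  positivity

/-- the leading coefficient is positive -/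
theorem lead_eq (hF : IsLSeries a b F) (hreal : ∀ s : ℝ, 1 < s → F s ≠ 0) {r : ℕ}
    (hr : analyticOrderAt F 1 = r) : iteratedDeriv r F 1 / (r.factorial : ℂ) =
      ((√2 * Real.exp (r * Real.eulerMascheroniConstant) / TC F r : ℝ) : ℂ) := by
  obtain ⟨hA, hlim⟩ := coeff_lim hF.1 hr
  set A := iteratedDeriv r F 1 / (r.factorial : ℂ) with hAdef
  have h1 : Tendsto (fun w : ℝ => (w : ℂ)) (𝓝[>] 0) (𝓝[≠] 0) := by
    rw [tendsto_nhdsWithin_iff]
    constructor
    · have := Complex.continuous_ofReal.tendsto 0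
      rw [Complex.ofReal_zero] at this
      exact tendsto_nhdsWithin_of_tendsto_nhds this
    · filter_upwards [self_mem_nhdsWithin] with w hw
      have hw0 : (0 : ℝ) < w := hw
      simp only [mem_compl_iff, mem_singleton_iff, Complex.ofReal_eq_zero]
      exact hw0.ne'
  have h2 := hlim.comp h1
  have hval : ∀ w : ℝ, 0 < w → ∃ z : ℝ, 0 < z ∧ F (1 + w) / (w : ℂ) ^ r = z := by
    intro w hw
    obtain ⟨z, hz, he⟩ := F_pos hF hreal hw
    refine ⟨z / w ^ r, by positivity, ?_⟩
    rw [he]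
    push_cast
    rfl
  have him : A.im = 0 := by
    have h3 := (Complex.continuous_im.tendsto A).comp h2
    refine tendsto_nhds_unique (h3.congr' ?_) tendsto_const_nhds
    filter_upwards [self_mem_nhdsWithin] with w hw
    obtain ⟨z, hz, he⟩ := hval w hw
    simp only [Function.comp_apply, he, Complex.ofReal_im]
  have hre : 0 ≤ A.re := by
    have h3 := (Complex.continuous_re.tendsto A).comp h2
    refine ge_of_tendsto h3 ?_
    filter_upwards [self_mem_nhdsWithin] with w hw
    obtain ⟨z, hz, he⟩ := hval w hw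
    simp only [Function.comp_apply, he, Complex.ofReal_re]
    exact hz.le
  have hA2 : A = ((‖A‖ : ℝ) : ℂ) := by
    have h4 : A = (A.re : ℂ) := Complex.ext (by simp) (by simpa using him)
    rw [h4, Complex.norm_real, Real.norm_of_nonneg hre]
  rw [hA2]
  congr 1
  have h5 : (0 : ℝ) < r.factorial := by exact_mod_cast r.factorial_pos
  have h6 : 0 < ‖iteratedDeriv r F 1‖ := by
    rw [norm_pos_iff]
    intro h
    rw [hAdef, h, zero_div] at hA
    exact hA rfl
  rw [hAdef, norm_div, Complex.norm_natCast]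
  unfold TC
  have h7 : (0 : ℝ) < √2 := by positivity
  have h8 := Real.exp_pos (r * Real.eulerMascheroniConstant)
  field_simp

/-- the hypotheses of the analytic part -/
structure Hyp (a b : ℤ) (F : ℂ → ℂ) (r : ℕ) : Prop where
  disc : 4 * a ^ 3 + 27 * b ^ 2 ≠ 0
  lser : IsLSeries a b F
  rs : Tendsto (rsSum a b) atTop (𝓝 0)
  gr : ∃ (η C₀ : ℝ) (κ : ℕ), 0 < η ∧ ∀ s : ℂ, 1 - η < s.re → ‖F s‖ ≤ C₀ * (1 + ‖s‖) ^ κ
  ord : analyticOrderAt F 1 = r

/-- the deviation `log P(e^u) - r log u - log T` -/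
noncomputable def dvu (a b : ℤ) (F : ℂ → ℂ) (r : ℕ) (u : ℝ) : ℝ :=
  dev a b r (TC F r) (Real.exp u)

theorem dvu_eq {r : ℕ} (H : Hyp a b F r) {u : ℝ} (hu : 1 ≤ u) : dvu a b F r u =
    Real.log (bsdProduct a b (Real.exp u)) - r * Real.log u - Real.log (TC F r) := by
  unfold dvu
  rw [dev_eq (TC_pos H.lser H.ord) (Real.exp_le_exp.2 hu), Real.log_exp]

/-- **Square integrability without zeros** -/
theorem sq_int {r : ℕ} (H : Hyp a b F r) (hz : ∀ s : ℂ, 1 < s.re → F s ≠ 0) :
    IntegrableOn (fun u : ℝ => devStar a b r (TC F r) (Real.exp u) ^ 2) (Ioi 1) := by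
  obtain ⟨η, C₀, κ, hη, hg⟩ := H.gr
  have h1 := (curve_law H.disc H.lser H.rs hη hg (r : ℝ) (TC_pos H.lser H.ord)).out 0 3
  have h2 := h1.1 ⟨hz, r, rfl, H.ord, lead_eq H.lser
    (fun s hs => hz s (by rw [Complex.ofReal_re]; exact hs)) H.ord⟩
  rw [← cov_int (fun u : ℝ => devStar a b r (TC F r) (Real.exp u) ^ 2)]
  refine (integrableOn_congr_fun (fun x hx => ?_) measurableSet_Ioi).1 h2
  have hx0 : 0 < x := (Real.exp_pos 1).trans hx
  simp only [Real.exp_log hx0]

theorem dev_close {r : ℕ} (H : Hyp a b F r) :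
    Tendsto (fun x => dev a b r (TC F r) x - devStar a b r (TC F r) x) atTop (𝓝 0) := by
  have h1 := (corr_lim H.disc H.rs).const_sub (-(Real.log 2 / 2))
  rw [sub_self] at h1
  refine h1.congr' ?_
  have hC := TC_pos H.lser H.ord
  filter_upwards [eventually_ge_atTop (Real.exp 1)] with x hx
  rw [dev_eq hC hx, devStar_eq hC hx]
  ring

/-- **The exceptional set has small tails.** -/
theorem tail_dvu {r : ℕ} (H : Hyp a b F r) (hz : ∀ s : ℂ, 1 < s.re → F s ≠ 0) :
    Tail (dvu a b F r) := by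
  intro ε hε
  have h1 := tail_of_integrable (sq_int H hz) (show 0 < (ε / 2) ^ 2 by positivity)
  obtain ⟨X, hX⟩ := (Metric.tendsto_atTop.1 (dev_close H)) (ε / 2) (by positivity)
  refine tendsto_of_tendsto_of_tendsto_of_le_of_le' tendsto_const_nhds h1
    (Eventually.of_forall fun _ => zero_le) ?_
  filter_upwards [eventually_ge_atTop (|X|)] with A hA
  refine measure_mono ?_
  rintro v ⟨h2, h3⟩
  refine ⟨h2, ?_⟩
  have h4 : X ≤ Real.exp v := by
    have := le_abs_self X
    have := Real.add_one_le_exp v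
    linarith
  have h5 := hX _ h4
  rw [Real.dist_eq, sub_zero] at h5
  have h6 : ε / 2 ≤ |devStar a b r (TC F r) (Real.exp v)| := by
    have h7 : |dvu a b F r v| ≤ |dev a b r (TC F r) (Real.exp v) -
        devStar a b r (TC F r) (Real.exp v)| + |devStar a b r (TC F r) (Real.exp v)| := by
      have := abs_add_le (dev a b r (TC F r) (Real.exp v) - devStar a b r (TC F r) (Real.exp v))
        (devStar a b r (TC F r) (Real.exp v))
      rwa [sub_add_cancel] at this
    linarith
  rw [← sq_abs (devStar a b r (TC F r) (Real.exp v))]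
  exact pow_le_pow_left₀ (by positivity) h6 2

/-! ### Growth -/

/-- `log P` is bounded on bounded sets -/
theorem logP_bdd (a b : ℤ) (U : ℝ) : ∃ M : ℝ, ∀ u : ℝ, 1 ≤ u → u ≤ U →
    |Real.log (bsdProduct a b (Real.exp u))| ≤ M := by
  obtain ⟨M, hM⟩ := (bm_product a b).2 (Real.exp U)
  exact ⟨M, fun u h1 h2 => hM _ (Real.exp_le_exp.2 h1) (Real.exp_le_exp.2 h2)⟩

/-- linear growth excludes zeros -/
theorem no_zeros_of_linear (hF : IsLSeries a b F) {C : ℝ}
    (h : ∀ᶠ u : ℝ in atTop, Real.log (bsdProduct a b (Real.exp u)) ≤ C * u) {s : ℂ}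
    (hs : 1 < s.re) : F s ≠ 0 := by
  intro h0
  set c : ℝ := (s.re - 1) / 2 with hc
  have hc0 : 0 < c := by rw [hc]; linarith
  have h1 := Pool.Agent.TH949.TX.bsd_up hF hc0.le (ρ := s) (by rw [hc]; linarith) h0 (δ := 1 / 2)
    (C := 1) (by norm_num)
  -- `C log x ≤ x^c`
  have h2 : ∀ᶠ x : ℝ in atTop, C * Real.log x ≤ x ^ c := by
    have h3 := (isLittleO_log_rpow_atTop hc0).const_mul_left C
    filter_upwards [h3.bound one_pos, eventually_ge_atTop 0] with x hx hx0
    rw [one_mul, Real.norm_of_nonneg (Real.rpow_nonneg hx0 c)] at hx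
    exact (Real.le_norm_self _).trans hx
  have h4 : ∀ᶠ x : ℝ in atTop, Real.log (bsdProduct a b x) ≤ C * Real.log x := by
    have := Real.tendsto_log_atTop.eventually h
    filter_upwards [this, eventually_gt_atTop 0] with x hx hx0
    rwa [Real.exp_log hx0] at hx
  obtain ⟨X0, hX0⟩ := eventually_atTop.1 (h2.and h4)
  have h5 : Tendsto (fun X : ℝ => X ^ (1 - 1 / 2 : ℝ)) atTop atTop := tendsto_rpow_atTop (by norm_num)
  obtain ⟨X, ⟨x, k1, -, -, k4⟩, k5⟩ := (h1.and (h5.eventually_ge_atTop X0)).exists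
  obtain ⟨k6, k7⟩ := hX0 x (k5.trans k1)
  linarith

theorem no_zeros_of_linear_lower (hF : IsLSeries a b F) (hreal : ∀ s : ℝ, 1 < s → F s ≠ 0) {C : ℝ}
    (h : ∀ᶠ u : ℝ in atTop, -(C * u) ≤ Real.log (bsdProduct a b (Real.exp u))) {s : ℂ}
    (hs : 1 < s.re) : F s ≠ 0 := by
  intro h0
  set c : ℝ := (s.re - 1) / 2 with hc
  have hc0 : 0 < c := by rw [hc]; linarith
  have h1 := Pool.Agent.TH949.TX.bsd_down hF hc0.le (fun t ht => hreal t (by linarith)) (ρ := s)
    (by rw [hc]; linarith) h0 (δ := 1 / 2) (C := 1) (by norm_num)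
  have h2 : ∀ᶠ x : ℝ in atTop, C * Real.log x ≤ x ^ c := by
    have h3 := (isLittleO_log_rpow_atTop hc0).const_mul_left C
    filter_upwards [h3.bound one_pos, eventually_ge_atTop 0] with x hx hx0
    rw [one_mul, Real.norm_of_nonneg (Real.rpow_nonneg hx0 c)] at hx
    exact (Real.le_norm_self _).trans hx
  have h4 : ∀ᶠ x : ℝ in atTop, -(C * Real.log x) ≤ Real.log (bsdProduct a b x) := by
    have := Real.tendsto_log_atTop.eventually h
    filter_upwards [this, eventually_gt_atTop 0] with x hx hx0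
    rwa [Real.exp_log hx0] at hx
  obtain ⟨X0, hX0⟩ := eventually_atTop.1 (h2.and h4)
  have h5 : Tendsto (fun X : ℝ => X ^ (1 - 1 / 2 : ℝ)) atTop atTop := tendsto_rpow_atTop (by norm_num)
  obtain ⟨X, ⟨x, k1, -, -, k4⟩, k5⟩ := (h1.and (h5.eventually_ge_atTop X0)).exists
  obtain ⟨k6, k7⟩ := hX0 x (k5.trans k1)
  linarith

/-- a function with bounded increments over one step grows at most linearly -/
theorem linear_of_add {D : ℝ → ℝ} {h K u0 : ℝ} (hh : 0 < h)
    (hb : ∀ U : ℝ, ∃ M : ℝ, ∀ u : ℝ, 1 ≤ u → u ≤ U → D u ≤ M)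
    (hD : ∀ u, u0 ≤ u → D (u + h) ≤ D u + K) : ∃ C : ℝ, ∀ᶠ u : ℝ in atTop, D u ≤ C * u := by
  set v0 : ℝ := max u0 1 with hv0
  obtain ⟨M, hM⟩ := hb (v0 + h)
  have hv1 : 1 ≤ v0 := le_max_right _ _
  -- steps
  have hstep : ∀ (n : ℕ) (u : ℝ), v0 ≤ u → D (u + n * h) ≤ D u + n * K := by
    intro n
    induction n with
    | zero => intro u _; simp
    | succ n ih =>
      intro u hu
      have h1 := ih u hu
      have h2 := hD (u + n * h) (by
        have : 0 ≤ (n : ℝ) * h := by positivity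
        have := le_max_left u0 1
        linarith)
      have e1 : u + ((n + 1 : ℕ) : ℝ) * h = u + n * h + h := by push_cast; ring
      rw [e1]
      push_cast
      linarith
  refine ⟨|M| + |K| / h, ?_⟩
  filter_upwards [eventually_ge_atTop v0] with u hu
  set n : ℕ := ⌊(u - v0) / h⌋₊ with hn
  have h0 : 0 ≤ (u - v0) / h := div_nonneg (by linarith) hh.le
  have h1 : (n : ℝ) ≤ (u - v0) / h := Nat.floor_le h0
  have h2 : (u - v0) / h < n + 1 := Nat.lt_floor_add_one _
  rw [le_div_iff₀ hh] at h1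
  rw [div_lt_iff₀ hh] at h2
  have h3 := hstep n (u - n * h) (by linarith)
  rw [sub_add_cancel] at h3
  have h4 := hM (u - n * h) (by linarith) (by linarith)
  have hu1 : 1 ≤ u := hv1.trans hu
  have h5 : (n : ℝ) * K ≤ |K| / h * u := by
    have e1 : (n : ℝ) ≤ u / h := by
      rw [le_div_iff₀ hh]; linarith
    calc (n : ℝ) * K ≤ n * |K| := mul_le_mul_of_nonneg_left (le_abs_self K) (Nat.cast_nonneg n)
      _ ≤ u / h * |K| := mul_le_mul_of_nonneg_right e1 (abs_nonneg K)
      _ = |K| / h * u := by ring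
  have h6 : M ≤ |M| * u := by
    have := le_abs_self M
    have := abs_nonneg M
    nlinarith
  linarith

/-- a function with bounded increments over one multiplicative step grows at most linearly -/
theorem linear_of_mul {D : ℝ → ℝ} {h K u0 : ℝ} (hh : 1 < h)
    (hb : ∀ U : ℝ, ∃ M : ℝ, ∀ u : ℝ, 1 ≤ u → u ≤ U → D u ≤ M)
    (hD : ∀ u, u0 ≤ u → D (h * u) ≤ D u + K) : ∃ C : ℝ, ∀ᶠ u : ℝ in atTop, D u ≤ C * u := by
  -- in terms of `s = log u`
  have h1 := linear_of_add (D := fun s => D (Real.exp s)) (h := Real.log h) (K := K)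
    (u0 := Real.log (max u0 1)) (Real.log_pos hh) (fun U => by
      obtain ⟨M, hM⟩ := hb (Real.exp U)
      exact ⟨M, fun u hu1 hu2 => hM _ (by
        have := Real.add_one_le_exp u
        linarith) (Real.exp_le_exp.2 hu2)⟩) (fun s hs => by
      have e1 : 0 < max u0 1 := lt_of_lt_of_le one_pos (le_max_right _ _)
      rw [Real.log_le_iff_le_exp e1] at hs
      have e2 := hD (Real.exp s) ((le_max_left _ _).trans hs)
      have e3 : Real.exp (s + Real.log h) = h * Real.exp s := by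
        rw [Real.exp_add, Real.exp_log (by linarith), mul_comm]
      simp only [e3]
      exact e2)
  obtain ⟨C, hC⟩ := h1
  refine ⟨|C|, ?_⟩
  filter_upwards [Real.tendsto_log_atTop.eventually hC, eventually_ge_atTop 1] with u hu hu1
  have hu0 : 0 < u := by linarith
  simp only [Real.exp_log hu0] at hu
  have e1 := Real.log_le_sub_one_of_pos hu0
  have e2 := Real.log_nonneg hu1
  calc D u ≤ C * Real.log u := hu
    _ ≤ |C| * Real.log u := mul_le_mul_of_nonneg_right (le_abs_self C) e2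
    _ ≤ |C| * u := mul_le_mul_of_nonneg_left (by linarith) (abs_nonneg C)

end Pool.Agent.Y686.TW
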