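import Mathlib

/-!
# One-sided slow variation on a set of ratios of positive measure

If `g : ℝ → ℝ` is small outside a set whose tails have small measure, and if
`limsup (g (u + h) - g u) ≤ 0` for each `h` in a set of positive outer measure, then `g → 0`.
The same with `g (h u)` in place of `g (u + h)`.
-/

set_option autoImplicit false

open MeasureTheory Filter Topology Set

namespace Pool.Agent.Y686.TW

/-- a map which is Lipschitz with constant one does not increase the (outer) measure -/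
theorem vol_image_le {φ : ℝ → ℝ} {s : Set ℝ} (h : LipschitzOnWith 1 φ s) :
    volume (φ '' s) ≤ volume s := by
  have h1 := h.hausdorffMeasure_image_le (d := 1) zero_le_one
  rw [← hausdorffMeasure_real]
  simpa using h1

/-- `g` is small outside of a set with small tails -/
def Tail (g : ℝ → ℝ) : Prop := ∀ ε : ℝ, 0 < ε →
  Tendsto (fun A : ℝ => volume {v : ℝ | A < v ∧ ε < |g v|}) atTop (𝓝 0)

theorem Tail.neg {g : ℝ → ℝ} (h : Tail g) : Tail (fun u => -g u) := by
  intro ε hε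
  simpa only [abs_neg] using h ε hε

variable {g : ℝ → ℝ}

/-- points where both are small -/
theorem Tail.lt (hg : Tail g) {H : Set ℝ} (hpos : volume H ≠ 0) {ε : ℝ} (hε : 0 < ε) :
    ∀ᶠ A : ℝ in atTop, volume {v : ℝ | A < v ∧ ε < |g v|} < volume H :=
  (hg ε hε).eventually (gt_mem_nhds (pos_iff_ne_zero.2 hpos))

theorem add_core (hg : Tail g) {H : Set ℝ} {B : ℝ} (hH : H ⊆ Ioc 0 B) (hpos : volume H ≠ 0)
    {K u0 : ℝ} (hK : ∀ h ∈ H, ∀ u, u0 ≤ u → g (u + h) ≤ g u + K) {ε : ℝ} (hε : 0 < ε) :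
    ∀ᶠ u : ℝ in atTop, |g u| ≤ K + ε := by
  obtain ⟨A, hA⟩ := (hg.lt hpos hε).exists
  have hB : 0 < B := by
    by_contra hneg
    have : H = ∅ := by
      refine Set.eq_empty_of_subset_empty (hH.trans ?_)
      intro x hx
      exact absurd (hx.1.trans_le hx.2) (by linarith)
    rw [this, measure_empty] at hpos
    exact hpos rfl
  filter_upwards [eventually_ge_atTop (max (A + B + 1) (u0 + B))] with u hu
  have hu1 : A + B + 1 ≤ u := (le_max_left _ _).trans hu
  have hu2 : u0 + B ≤ u := (le_max_right _ _).trans hu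
  -- forward
  have hf : ∃ h ∈ H, |g (u + h)| ≤ ε := by
    by_contra hneg
    push Not at hneg
    have h1 : H ⊆ (fun h => u + h) ⁻¹' {v : ℝ | A < v ∧ ε < |g v|} := by
      intro h hh
      refine ⟨?_, hneg h hh⟩
      have := (hH hh).1
      show A < u + h
      linarith
    have h2 := (measure_mono h1).trans_eq (measure_preimage_add volume u _)
    exact absurd h2 (not_le.2 hA)
  have hb : ∃ h ∈ H, |g (u - h)| ≤ ε := by
    by_contra hneg
    push Not at hneg
    have h1 : H ⊆ (fun v => u - v) '' {v : ℝ | A < v ∧ ε < |g v|} := by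
      intro h hh
      refine ⟨u - h, ⟨?_, hneg h hh⟩, by ring⟩
      have := (hH hh).2
      linarith
    have h3 : LipschitzOnWith 1 (fun v : ℝ => u - v) {v : ℝ | A < v ∧ ε < |g v|} := by
      refine LipschitzOnWith.of_dist_le_mul fun x _ y _ => ?_
      rw [Real.dist_eq, Real.dist_eq, NNReal.coe_one, one_mul, abs_sub_comm]
      exact le_of_eq (by congr 1; ring)
    exact absurd ((measure_mono h1).trans (vol_image_le h3)) (not_le.2 hA)
  obtain ⟨h, hh, h1⟩ := hf
  obtain ⟨k, hk, h2⟩ := hb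
  have h3 := hK h hh u (by linarith)
  have h4 := hK k hk (u - k) (by have := (hH hk).2; linarith)
  rw [sub_add_cancel] at h4
  have h5 := abs_le.1 h1
  have h6 := abs_le.1 h2
  rw [abs_le]
  constructor <;> linarith

theorem mul_core (hg : Tail g) {H : Set ℝ} {B : ℝ} (hH : H ⊆ Ioc 1 B) (hpos : volume H ≠ 0)
    {K u0 : ℝ} (hK : ∀ h ∈ H, ∀ u, u0 ≤ u → g (h * u) ≤ g u + K) {ε : ℝ} (hε : 0 < ε) :
    ∀ᶠ u : ℝ in atTop, |g u| ≤ K + ε := by
  obtain ⟨A, hA⟩ := (hg.lt hpos hε).exists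
  have hB : 1 < B := by
    by_contra hneg
    have : H = ∅ := by
      refine Set.eq_empty_of_subset_empty (hH.trans ?_)
      intro x hx
      exact absurd (hx.1.trans_le hx.2) (by linarith)
    rw [this, measure_empty] at hpos
    exact hpos rfl
  filter_upwards [eventually_ge_atTop (max (max (B * (|A| + 1)) (B ^ 2)) (B * |u0|))] with u hu
  have hu1 : B * (|A| + 1) ≤ u := (le_max_left _ _).trans ((le_max_left _ _).trans hu)
  have hu2 : B ^ 2 ≤ u := (le_max_right _ _).trans ((le_max_left _ _).trans hu)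
  have hu3 : B * |u0| ≤ u := (le_max_right _ _).trans hu
  have hA0 := le_abs_self A
  have hu00 := le_abs_self u0
  have hB0 : 0 < B := by linarith
  have hu4 : 1 ≤ u := by nlinarith
  have hu0' : 0 < u := by linarith
  have hdiv : ∀ h ∈ H, |A| + 1 ≤ u / h ∧ |u0| ≤ u / h ∧ u / B ≤ u / h := by
    intro h hh
    have h1 := hH hh
    have h2 : 0 < h := by linarith [h1.1]
    refine ⟨?_, ?_, ?_⟩
    · rw [le_div_iff₀ h2]
      calc (|A| + 1) * h ≤ (|A| + 1) * B := by
            have := h1.2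
            have h3 : 0 ≤ |A| + 1 := by positivity
            nlinarith
        _ ≤ u := by linarith
    · rw [le_div_iff₀ h2]
      calc |u0| * h ≤ |u0| * B := mul_le_mul_of_nonneg_left h1.2 (abs_nonneg _)
        _ ≤ u := by linarith
    · exact div_le_div_of_nonneg_left hu0'.le h2 h1.2
  -- forward
  have hf : ∃ h ∈ H, |g (h * u)| ≤ ε := by
    by_contra hneg
    push Not at hneg
    have h1 : H ⊆ (fun h => h * u) ⁻¹' {v : ℝ | A < v ∧ ε < |g v|} := by
      intro h hh
      refine ⟨?_, hneg h hh⟩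
      have h1 := (hH hh).1
      show A < h * u
      have h2 : u ≤ h * u := by nlinarith
      have h3 : |A| + 1 ≤ u := by nlinarith [abs_nonneg A]
      linarith
    have h2 := (measure_mono h1).trans_eq (Real.volume_preimage_mul_right hu0'.ne' _)
    have h3 : ENNReal.ofReal |u⁻¹| ≤ 1 := by
      rw [ENNReal.ofReal_le_one, abs_of_pos (by positivity)]
      exact inv_le_one_of_one_le₀ hu4
    have h4 : volume H ≤ 1 * volume {v : ℝ | A < v ∧ ε < |g v|} := h2.trans (by gcongr)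
    rw [one_mul] at h4
    exact absurd h4 (not_le.2 hA)
  have hb : ∃ h ∈ H, |g (u / h)| ≤ ε := by
    by_contra hneg
    push Not at hneg
    have h1 : H ⊆ (fun v => u / v) '' ({v : ℝ | A < v ∧ ε < |g v|} ∩ Ici (u / B)) := by
      intro h hh
      have h2 := hdiv h hh
      have h3 : 0 < h := by linarith [(hH hh).1]
      refine ⟨u / h, ⟨⟨?_, hneg h hh⟩, h2.2.2⟩, ?_⟩
      · linarith [h2.1]
      · show u / (u / h) = h
        rw [div_div_cancel₀ hu0'.ne']
    have h3 : LipschitzOnWith 1 (fun v : ℝ => u / v)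
        ({v : ℝ | A < v ∧ ε < |g v|} ∩ Ici (u / B)) := by
      refine LipschitzOnWith.of_dist_le_mul fun x hx y hy => ?_
      have hx1 : u / B ≤ x := hx.2
      have hy1 : u / B ≤ y := hy.2
      have huB : 0 < u / B := by positivity
      have hx0 : 0 < x := by linarith
      have hy0 : 0 < y := by linarith
      rw [Real.dist_eq, Real.dist_eq, NNReal.coe_one, one_mul]
      have e1 : u / x - u / y = u * (y - x) / (x * y) := by
        field_simp
      rw [e1, abs_div, abs_mul, abs_of_pos hu0', abs_of_pos (mul_pos hx0 hy0), abs_sub_comm y x]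
      rw [div_le_iff₀ (mul_pos hx0 hy0)]
      have e2 : u ≤ x * y := by
        have e3 : (u / B) * (u / B) ≤ x * y := mul_le_mul hx1 hy1 huB.le hx0.le
        have e4 : u ≤ (u / B) * (u / B) := by
          rw [div_mul_div_comm, le_div_iff₀ (by positivity)]
          nlinarith
        linarith
      have := abs_nonneg (x - y)
      nlinarith
    have h4 := (measure_mono h1).trans ((vol_image_le h3).trans (measure_mono inter_subset_left))
    exact absurd h4 (not_le.2 hA)
  obtain ⟨h, hh, h1⟩ := hf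
  obtain ⟨k, hk, h2⟩ := hb
  have hu5 : u0 ≤ u := by nlinarith [abs_nonneg u0]
  have h3 := hK h hh u hu5
  have h4 := hK k hk (u / k) (by linarith [(hdiv k hk).2.1])
  have hk0 : k ≠ 0 := by linarith [(hH hk).1]
  rw [mul_div_cancel₀ _ hk0] at h4
  have h5 := abs_le.1 h1
  have h6 := abs_le.1 h2
  rw [abs_le]
  constructor <;> linarith

/-- a set of positive measure which is a union of countably many sets -/
theorem pos_part {H : Set ℝ} (hpos : volume H ≠ 0) {Q : ℕ → Set ℝ} (hQ : H ⊆ ⋃ n, Q n) :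
    ∃ n, volume (H ∩ Q n) ≠ 0 := by
  by_contra hneg
  push Not at hneg
  have h1 : H ⊆ ⋃ n, (H ∩ Q n) := by
    rw [← inter_iUnion]
    exact subset_inter subset_rfl hQ
  exact hpos (measure_mono_null h1 (measure_iUnion_null hneg))

/-- bounded increments on a set of positive measure -/
theorem add_bdd (hg : Tail g) {H : Set ℝ} (hH : H ⊆ Ioi 0) (hpos : volume H ≠ 0)
    (hK : ∀ h ∈ H, ∃ K : ℝ, ∀ᶠ u : ℝ in atTop, g (u + h) ≤ g u + K) :
    ∃ M : ℝ, ∀ᶠ u : ℝ in atTop, |g u| ≤ M := by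
  obtain ⟨n, hn⟩ := pos_part (Q := fun n : ℕ => {h : ℝ | h ≤ n ∧ ∀ u, (n : ℝ) ≤ u →
      g (u + h) ≤ g u + n}) hpos (by
    intro h hh
    obtain ⟨K, h1⟩ := hK h hh
    obtain ⟨u0, h2⟩ := eventually_atTop.1 h1
    obtain ⟨n, h3⟩ := exists_nat_ge (max h (max K u0))
    refine mem_iUnion.2 ⟨n, (le_max_left _ _).trans h3, fun u hu => ?_⟩
    have h4 : K ≤ n := (le_max_left _ _).trans ((le_max_right _ _).trans h3)
    have h5 : u0 ≤ n := (le_max_right _ _).trans ((le_max_right _ _).trans h3)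
    linarith [h2 u (h5.trans hu)])
  exact ⟨n + 1, add_core hg (B := n) (fun h hh => ⟨hH hh.1, hh.2.1⟩) hn
    (fun h hh u hu => hh.2.2 u hu) one_pos⟩

theorem mul_bdd (hg : Tail g) {H : Set ℝ} (hH : H ⊆ Ioi 1) (hpos : volume H ≠ 0)
    (hK : ∀ h ∈ H, ∃ K : ℝ, ∀ᶠ u : ℝ in atTop, g (h * u) ≤ g u + K) :
    ∃ M : ℝ, ∀ᶠ u : ℝ in atTop, |g u| ≤ M := by
  obtain ⟨n, hn⟩ := pos_part (Q := fun n : ℕ => {h : ℝ | h ≤ n ∧ ∀ u, (n : ℝ) ≤ u →
      g (h * u) ≤ g u + n}) hpos (by
    intro h hh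
    obtain ⟨K, h1⟩ := hK h hh
    obtain ⟨u0, h2⟩ := eventually_atTop.1 h1
    obtain ⟨n, h3⟩ := exists_nat_ge (max h (max K u0))
    refine mem_iUnion.2 ⟨n, (le_max_left _ _).trans h3, fun u hu => ?_⟩
    have h4 : K ≤ n := (le_max_left _ _).trans ((le_max_right _ _).trans h3)
    have h5 : u0 ≤ n := (le_max_right _ _).trans ((le_max_right _ _).trans h3)
    linarith [h2 u (h5.trans hu)])
  exact ⟨n + 1, mul_core hg (B := n) (fun h hh => ⟨hH hh.1, hh.2.1⟩) hn
    (fun h hh u hu => hh.2.2 u hu) one_pos⟩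

/-- slow increase on a set of positive measure -/
theorem add_lim (hg : Tail g) {H : Set ℝ} (hH : H ⊆ Ioi 0) (hpos : volume H ≠ 0)
    (hK : ∀ h ∈ H, ∀ ε : ℝ, 0 < ε → ∀ᶠ u : ℝ in atTop, g (u + h) ≤ g u + ε) :
    Tendsto g atTop (𝓝 0) := by
  rw [Metric.tendsto_nhds]
  intro ε hε
  obtain ⟨n, hn⟩ := pos_part (Q := fun n : ℕ => {h : ℝ | h ≤ n ∧ ∀ u, (n : ℝ) ≤ u →
      g (u + h) ≤ g u + ε / 3}) hpos (by
    intro h hh
    obtain ⟨u0, h2⟩ := eventually_atTop.1 (hK h hh (ε / 3) (by positivity))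
    obtain ⟨n, h3⟩ := exists_nat_ge (max h u0)
    exact mem_iUnion.2 ⟨n, (le_max_left _ _).trans h3, fun u hu =>
      h2 u (((le_max_right _ _).trans h3).trans hu)⟩)
  filter_upwards [add_core hg (B := n) (fun h hh => ⟨hH hh.1, hh.2.1⟩) hn
    (fun h hh u hu => hh.2.2 u hu) (show 0 < ε / 3 by positivity)] with u hu
  rw [Real.dist_eq, sub_zero]
  linarith

theorem mul_lim (hg : Tail g) {H : Set ℝ} (hH : H ⊆ Ioi 1) (hpos : volume H ≠ 0)
    (hK : ∀ h ∈ H, ∀ ε : ℝ, 0 < ε → ∀ᶠ u : ℝ in atTop, g (h * u) ≤ g u + ε) :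
    Tendsto g atTop (𝓝 0) := by
  rw [Metric.tendsto_nhds]
  intro ε hε
  obtain ⟨n, hn⟩ := pos_part (Q := fun n : ℕ => {h : ℝ | h ≤ n ∧ ∀ u, (n : ℝ) ≤ u →
      g (h * u) ≤ g u + ε / 3}) hpos (by
    intro h hh
    obtain ⟨u0, h2⟩ := eventually_atTop.1 (hK h hh (ε / 3) (by positivity))
    obtain ⟨n, h3⟩ := exists_nat_ge (max h u0)
    exact mem_iUnion.2 ⟨n, (le_max_left _ _).trans h3, fun u hu =>
      h2 u (((le_max_right _ _).trans h3).trans hu)⟩)
  filter_upwards [mul_core hg (B := n) (fun h hh => ⟨hH hh.1, hh.2.1⟩) hn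
    (fun h hh u hu => hh.2.2 u hu) (show 0 < ε / 3 by positivity)] with u hu
  rw [Real.dist_eq, sub_zero]
  linarith

/-- there are arbitrarily large points where `g u` and `g (φ u)` are small -/
theorem freq_mul (hg : Tail g) {h : ℝ} (hh : 1 < h) {ε : ℝ} (hε : 0 < ε) :
    ∃ᶠ u : ℝ in atTop, |g u| ≤ ε ∧ |g (h * u)| ≤ ε := by
  rw [frequently_atTop]
  intro U
  have h1 : volume (Ioc (0 : ℝ) 1) ≠ 0 := by simp
  obtain ⟨A, hA, hA2⟩ := ((hg.lt (H := Ioc (0 : ℝ) 1) h1 hε).and (eventually_ge_atTop (max U 0))).exists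
  have hAU : U ≤ A := (le_max_left _ _).trans hA2
  have hA0 : 0 ≤ A := (le_max_right _ _).trans hA2
  by_contra hneg
  push Not at hneg
  have hcov : Ioc A (A + 3) ⊆ {v : ℝ | A < v ∧ ε < |g v|} ∪
      (fun v => v * h) ⁻¹' {v : ℝ | A < v ∧ ε < |g v|} := by
    intro v hv
    by_cases hgv : |g v| ≤ ε
    · right
      have := hneg v (hAU.trans hv.1.le) hgv
      refine ⟨?_, ?_⟩
      · show A < v * h
        nlinarith [hv.1]
      · rw [mul_comm] at this
        exact this
    · left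
      exact ⟨hv.1, not_le.1 hgv⟩
  have h2 := (measure_mono (μ := volume) hcov).trans (measure_union_le _ _)
  rw [Real.volume_preimage_mul_right (by linarith : h ≠ 0), Real.volume_Ioc,
    add_sub_cancel_left] at h2
  have h3 : ENNReal.ofReal |h⁻¹| ≤ 1 := by
    rw [ENNReal.ofReal_le_one, abs_of_pos (by positivity)]
    exact inv_le_one_of_one_le₀ hh.le
  have h4 : volume {v : ℝ | A < v ∧ ε < |g v|} ≤ 1 := by
    refine hA.le.trans ?_
    rw [Real.volume_Ioc]
    simp
  have h5 : ENNReal.ofReal 3 ≤ 1 + 1 * 1 := h2.trans (by gcongr)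
  rw [one_mul, one_add_one_eq_two, show (2 : ENNReal) = ENNReal.ofReal 2 by simp,
    ENNReal.ofReal_le_ofReal_iff (by norm_num)] at h5
  linarith

theorem freq_add (hg : Tail g) {h : ℝ} (hh : 0 < h) {ε : ℝ} (hε : 0 < ε) :
    ∃ᶠ u : ℝ in atTop, |g u| ≤ ε ∧ |g (u + h)| ≤ ε := by
  rw [frequently_atTop]
  intro U
  have h1 : volume (Ioc (0 : ℝ) 1) ≠ 0 := by simp
  obtain ⟨A, hA, hA2⟩ := ((hg.lt (H := Ioc (0 : ℝ) 1) h1 hε).and (eventually_ge_atTop U)).exists
  by_contra hneg
  push Not at hneg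
  have hcov : Ioc A (A + 3) ⊆ {v : ℝ | A < v ∧ ε < |g v|} ∪
      (fun v => h + v) ⁻¹' {v : ℝ | A < v ∧ ε < |g v|} := by
    intro v hv
    by_cases hgv : |g v| ≤ ε
    · right
      have := hneg v (hA2.trans hv.1.le) hgv
      refine ⟨?_, ?_⟩
      · show A < h + v
        linarith [hv.1]
      · rw [add_comm] at this
        exact this
    · left
      exact ⟨hv.1, not_le.1 hgv⟩
  have h2 := (measure_mono (μ := volume) hcov).trans (measure_union_le _ _)
  rw [measure_preimage_add, Real.volume_Ioc, add_sub_cancel_left] at h2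
  have h4 : volume {v : ℝ | A < v ∧ ε < |g v|} ≤ 1 := by
    refine hA.le.trans ?_
    rw [Real.volume_Ioc]
    simp
  have h5 : ENNReal.ofReal 3 ≤ 1 + 1 := h2.trans (by gcongr)
  rw [one_add_one_eq_two, show (2 : ENNReal) = ENNReal.ofReal 2 by simp,
    ENNReal.ofReal_le_ofReal_iff (by norm_num)] at h5
  linarith

end Pool.Agent.Y686.TW
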