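import Pool.Agent.Y686.TW.Prod

/-!
# Equivalent forms of the asymptotic formula for the Birch and Swinnerton-Dyer product
-/

set_option autoImplicit false

open MeasureTheory Filter Topology Set Classical
open Pool.Agent.W263.BSD
open Pool.Agent.TH270.MS
open Pool.Agent.TH270.MS.EQ

namespace Pool.Agent.Y686.TW

variable {a b : ℤ} {F : ℂ → ℂ} {r : ℕ}

theorem log_image_pos {S : Set ℝ} (hS : S ⊆ Ioi 1) : Real.log '' S ⊆ Ioi 0 := by
  rintro _ ⟨x, hx, rfl⟩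
  exact Real.log_pos (hS hx)

theorem of_add (H : Hyp a b F r) {S : Set ℝ} (hS : S ⊆ Ioi 1) (hpos : volume S ≠ 0)
    (hK : ∀ h ∈ S, ∀ ε : ℝ, 0 < ε → ∀ᶠ x : ℝ in atTop,
      bsdProduct a b (h * x) ≤ (1 + ε) * bsdProduct a b x) :
    (∀ s : ℂ, 1 < s.re → F s ≠ 0) ∧ Tendsto (dvu a b F r) atTop (𝓝 0) := by
  refine lim_of_add H (log_image_pos hS) (vol_log_image hS hpos) ?_
  rintro _ ⟨h, hh, rfl⟩ ε hε
  have hh0 : 0 < h := lt_trans one_pos (hS hh)
  filter_upwards [ev_exp.1 (hK h hh ε hε)] with u hu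
  rw [exp_mul_add hh0, le_mul_iff (by linarith)] at hu
  have := Real.log_le_sub_one_of_pos (show 0 < 1 + ε by linarith)
  linarith

theorem of_add_lower (H : Hyp a b F r) (hreal : ∀ s : ℝ, 1 < s → F s ≠ 0) {S : Set ℝ}
    (hS : S ⊆ Ioi 1) (hpos : volume S ≠ 0)
    (hK : ∀ h ∈ S, ∀ ε : ℝ, 0 < ε → ∀ᶠ x : ℝ in atTop,
      bsdProduct a b x ≤ (1 + ε) * bsdProduct a b (h * x)) :
    (∀ s : ℂ, 1 < s.re → F s ≠ 0) ∧ Tendsto (dvu a b F r) atTop (𝓝 0) := by
  refine lim_of_add_lower H hreal (log_image_pos hS) (vol_log_image hS hpos) ?_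
  rintro _ ⟨h, hh, rfl⟩ ε hε
  have hh0 : 0 < h := lt_trans one_pos (hS hh)
  filter_upwards [ev_exp.1 (hK h hh ε hε)] with u hu
  rw [exp_mul_add hh0, le_mul_iff (by linarith)] at hu
  have := Real.log_le_sub_one_of_pos (show 0 < 1 + ε by linarith)
  linarith

theorem log_pow_exp {l ε : ℝ} (hl : 0 < l) (r : ℕ) :
    Real.log (l ^ r * Real.exp ε) = r * Real.log l + ε := by
  rw [Real.log_mul (pow_pos hl r).ne' (Real.exp_pos ε).ne', Real.log_pow, Real.log_exp]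

theorem of_mul (H : Hyp a b F r) {S : Set ℝ} (hS : S ⊆ Ioi 1) (hpos : volume S ≠ 0)
    (hK : ∀ l ∈ S, ∀ ε : ℝ, 0 < ε → ∀ᶠ x : ℝ in atTop,
      bsdProduct a b (x ^ l) ≤ (l ^ r + ε) * bsdProduct a b x) :
    (∀ s : ℂ, 1 < s.re → F s ≠ 0) ∧ Tendsto (dvu a b F r) atTop (𝓝 0) := by
  refine lim_of_mul H hS hpos fun l hl ε hε => ?_
  have hl0 : 0 < l := lt_trans one_pos (hS hl)
  have hlr : 0 < l ^ r := pow_pos hl0 r
  have h1 : 0 < l ^ r * (Real.exp ε - 1) := by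
    refine mul_pos hlr ?_
    have := Real.add_one_lt_exp hε.ne'
    linarith
  filter_upwards [ev_exp.1 (hK l hl _ h1)] with u hu
  have e1 : l ^ r + l ^ r * (Real.exp ε - 1) = l ^ r * Real.exp ε := by ring
  rw [e1, exp_rpow', le_mul_iff (by positivity), log_pow_exp hl0] at hu
  exact hu

theorem of_mul_lower (H : Hyp a b F r) (hreal : ∀ s : ℝ, 1 < s → F s ≠ 0) {S : Set ℝ}
    (hS : S ⊆ Ioi 1) (hpos : volume S ≠ 0)
    (hK : ∀ l ∈ S, ∀ ε : ℝ, 0 < ε → ∀ᶠ x : ℝ in atTop,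
      (l ^ r - ε) * bsdProduct a b x ≤ bsdProduct a b (x ^ l)) :
    (∀ s : ℂ, 1 < s.re → F s ≠ 0) ∧ Tendsto (dvu a b F r) atTop (𝓝 0) := by
  refine lim_of_mul_lower H hreal hS hpos fun l hl ε hε => ?_
  have hl0 : 0 < l := lt_trans one_pos (hS hl)
  have hlr : 0 < l ^ r := pow_pos hl0 r
  have h1 : 0 < l ^ r * (1 - Real.exp (-ε)) := by
    refine mul_pos hlr ?_
    have : Real.exp (-ε) < 1 := by rw [Real.exp_lt_one_iff]; linarith
    linarith
  filter_upwards [ev_exp.1 (hK l hl _ h1)] with u hu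
  have e1 : l ^ r - l ^ r * (1 - Real.exp (-ε)) = l ^ r * Real.exp (-ε) := by ring
  have h2 : bsdProduct a b (Real.exp u) ≤
      (l ^ r * Real.exp (-ε))⁻¹ * bsdProduct a b (Real.exp (l * u)) := by
    rw [e1, exp_rpow'] at hu
    rw [inv_mul_eq_div, le_div_iff₀ (by positivity), mul_comm]
    exact hu
  rw [le_mul_iff (by positivity), Real.log_inv, log_pow_exp hl0] at h2
  linarith

theorem quot_exp (u l : ℝ) :
    bsdProduct a b (Real.exp u ^ l) / bsdProduct a b (Real.exp u) =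
      Real.exp (lgP a b (l * u) - lgP a b u) := by
  rw [Real.exp_sub, exp_lgP, exp_lgP, exp_rpow']

theorem of_limits (H : Hyp a b F r) {S : Set ℝ} (hS : S ⊆ Ioi 1) (hpos : volume S ≠ 0)
    (hK : ∀ l ∈ S, ∃ c : ℝ, Tendsto (fun x : ℝ => bsdProduct a b (x ^ l) / bsdProduct a b x) atTop
      (𝓝 c)) :
    (∀ s : ℂ, 1 < s.re → F s ≠ 0) ∧ Tendsto (dvu a b F r) atTop (𝓝 0) := by
  refine lim_of_mul H hS hpos fun l hl ε hε => ?_
  have hl1 : 1 < l := hS hl
  have hl0 : 0 < l := lt_trans one_pos hl1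
  obtain ⟨c, hc⟩ := hK l hl
  have h1 : Tendsto (fun u : ℝ => Real.exp (lgP a b (l * u) - lgP a b u)) atTop (𝓝 c) := by
    refine (hc.comp Real.tendsto_exp_atTop).congr fun u => ?_
    simp only [Function.comp_apply]
    exact quot_exp u l
  obtain ⟨-, rfl⟩ := lim_unique H hl1 h1
  have h2 : l ^ r < l ^ r * Real.exp ε := by
    have := Real.add_one_lt_exp hε.ne'
    have h3 := pow_pos hl0 r
    nlinarith
  filter_upwards [h1.eventually (gt_mem_nhds h2)] with u hu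
  rw [← Real.exp_log (show 0 < l ^ r * Real.exp ε by positivity), Real.exp_lt_exp,
    log_pow_exp hl0] at hu
  linarith

/-- **Equivalent forms of the original conjecture.** -/
theorem prod_tfae (H : Hyp a b F r) : List.TFAE [
    ∃ C ρ : ℝ, C ≠ 0 ∧ Tendsto (fun x : ℝ => bsdProduct a b x / Real.log x ^ ρ) atTop (𝓝 C),
    Tendsto (fun x : ℝ => bsdProduct a b x / Real.log x ^ r) atTop (𝓝 (TC F r)),
    ∃ S ⊆ Ioi (1 : ℝ), volume S ≠ 0 ∧ ∀ h ∈ S, ∀ ε : ℝ, 0 < ε → ∀ᶠ x : ℝ in atTop,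
      bsdProduct a b (h * x) ≤ (1 + ε) * bsdProduct a b x,
    ∃ S ⊆ Ioi (1 : ℝ), volume S ≠ 0 ∧ ∀ l ∈ S, ∀ ε : ℝ, 0 < ε → ∀ᶠ x : ℝ in atTop,
      bsdProduct a b (x ^ l) ≤ (l ^ r + ε) * bsdProduct a b x,
    ∃ S ⊆ Ioi (1 : ℝ), volume S ≠ 0 ∧ ∀ l ∈ S, ∃ c : ℝ,
      Tendsto (fun x : ℝ => bsdProduct a b (x ^ l) / bsdProduct a b x) atTop (𝓝 c),
    (∀ s : ℝ, 1 < s → F s ≠ 0) ∧
    ∃ S ⊆ Ioi (1 : ℝ), volume S ≠ 0 ∧ ∀ h ∈ S, ∀ ε : ℝ, 0 < ε → ∀ᶠ x : ℝ in atTop,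
      bsdProduct a b x ≤ (1 + ε) * bsdProduct a b (h * x),
    (∀ s : ℝ, 1 < s → F s ≠ 0) ∧
    ∃ S ⊆ Ioi (1 : ℝ), volume S ≠ 0 ∧ ∀ l ∈ S, ∀ ε : ℝ, 0 < ε → ∀ᶠ x : ℝ in atTop,
      (l ^ r - ε) * bsdProduct a b x ≤ bsdProduct a b (x ^ l)] := by
  have hvol : volume (Ioi (1 : ℝ)) ≠ 0 := by simp
  have up : ∀ {f : ℝ → ℝ} {c ε : ℝ}, Tendsto (fun x => f x / bsdProduct a b x) atTop (𝓝 c) →
      0 < ε → ∀ᶠ x : ℝ in atTop, f x ≤ (c + ε) * bsdProduct a b x := by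
    intro f c ε h hε
    filter_upwards [h.eventually (gt_mem_nhds (show c < c + ε by linarith))] with x hx
    rw [div_lt_iff₀ (bsdProduct_pos x)] at hx
    exact hx.le
  have lo : ∀ {f : ℝ → ℝ} {c ε : ℝ}, Tendsto (fun x => f x / bsdProduct a b x) atTop (𝓝 c) →
      0 < ε → ∀ᶠ x : ℝ in atTop, (c - ε) * bsdProduct a b x ≤ f x := by
    intro f c ε h hε
    filter_upwards [h.eventually (lt_mem_nhds (show c - ε < c by linarith))] with x hx
    rw [lt_div_iff₀ (bsdProduct_pos x)] at hx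
    exact hx.le
  tfae_have 1 → 3 := by
    rintro ⟨C, ρ, hC, h⟩
    exact ⟨Ioi 1, subset_rfl, hvol, fun k hk ε hε => up (quot_add hC h (lt_trans one_pos hk)) hε⟩
  tfae_have 3 → 2 := by
    rintro ⟨S, hS, hpos, hK⟩
    exact tendsto_of_dvu H (of_add H hS hpos hK).2
  have h21 : Tendsto (fun x : ℝ => bsdProduct a b x / Real.log x ^ r) atTop (𝓝 (TC F r)) →
      Tendsto (fun x : ℝ => bsdProduct a b x / Real.log x ^ (r : ℝ)) atTop (𝓝 (TC F r)) := by
    intro h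
    simpa only [Real.rpow_natCast] using h
  tfae_have 2 → 1 := fun h => ⟨TC F r, r, (TC_pos H.lser H.ord).ne', h21 h⟩
  have hnz : Tendsto (fun x : ℝ => bsdProduct a b x / Real.log x ^ r) atTop (𝓝 (TC F r)) →
      ∀ s : ℝ, 1 < s → F s ≠ 0 := by
    intro h s hs
    refine (of_add H (S := Ioi 1) subset_rfl hvol fun k hk ε hε =>
      up (quot_add (TC_pos H.lser H.ord).ne' (h21 h) (lt_trans one_pos hk)) hε).1 s ?_
    rw [Complex.ofReal_re]
    exact hs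
  have hq : Tendsto (fun x : ℝ => bsdProduct a b x / Real.log x ^ r) atTop (𝓝 (TC F r)) →
      ∀ l : ℝ, 1 < l → Tendsto (fun x : ℝ => bsdProduct a b (x ^ l) / bsdProduct a b x) atTop
        (𝓝 (l ^ r)) := by
    intro h l hl
    have := quot_mul (TC_pos H.lser H.ord).ne' (h21 h) (lt_trans one_pos hl)
    simpa only [Real.rpow_natCast] using this
  tfae_have 2 → 4 := fun h => ⟨Ioi 1, subset_rfl, hvol, fun l hl ε hε => up (hq h l hl) hε⟩
  tfae_have 4 → 2 := by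
    rintro ⟨S, hS, hpos, hK⟩
    exact tendsto_of_dvu H (of_mul H hS hpos hK).2
  tfae_have 2 → 5 := fun h => ⟨Ioi 1, subset_rfl, hvol, fun l hl => ⟨_, hq h l hl⟩⟩
  tfae_have 5 → 2 := by
    rintro ⟨S, hS, hpos, hK⟩
    exact tendsto_of_dvu H (of_limits H hS hpos hK).2
  tfae_have 2 → 6 := by
    intro h
    refine ⟨hnz h, Ioi 1, subset_rfl, hvol, fun k hk ε hε => ?_⟩
    have hε2 : 0 < ε / (1 + ε) := by positivity
    filter_upwards [lo (quot_add (TC_pos H.lser H.ord).ne' (h21 h) (lt_trans one_pos hk)) hε2]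
      with x hx
    have e1 : 1 - ε / (1 + ε) = (1 + ε)⁻¹ := by field_simp; ring
    rw [e1, inv_mul_eq_div, div_le_iff₀ (by linarith), mul_comm] at hx
    exact hx
  tfae_have 6 → 2 := by
    rintro ⟨hreal, S, hS, hpos, hK⟩
    exact tendsto_of_dvu H (of_add_lower H hreal hS hpos hK).2
  tfae_have 2 → 7 := fun h => ⟨hnz h, Ioi 1, subset_rfl, hvol, fun l hl ε hε => lo (hq h l hl) hε⟩
  tfae_have 7 → 2 := by
    rintro ⟨hreal, S, hS, hpos, hK⟩
    exact tendsto_of_dvu H (of_mul_lower H hreal hS hpos hK).2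
  tfae_finish

/-! ### The order of magnitude -/

theorem order_of_bdd (H : Hyp a b F r) (h : ∃ M : ℝ, ∀ᶠ u : ℝ in atTop, |dvu a b F r u| ≤ M) :
    ∃ c C : ℝ, 0 < c ∧ ∀ᶠ x : ℝ in atTop, c * Real.log x ^ r ≤ bsdProduct a b x ∧
      bsdProduct a b x ≤ C * Real.log x ^ r := by
  obtain ⟨M, hM⟩ := h
  have hT := TC_pos H.lser H.ord
  refine ⟨TC F r * Real.exp (-M), TC F r * Real.exp M, by positivity, ?_⟩
  filter_upwards [Real.tendsto_log_atTop.eventually hM, eventually_ge_atTop (Real.exp 1)] with x hx hx1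
  have hx0 : 0 < x := (Real.exp_pos 1).trans_le hx1
  have hl : 1 ≤ Real.log x := by rwa [Real.le_log_iff_exp_le hx0]
  have h1 : bsdProduct a b x = TC F r * Real.exp (dvu a b F r (Real.log x)) * Real.log x ^ r := by
    rw [dvu_eq' H hl]
    unfold lgP
    rw [Real.exp_log hx0, Real.exp_sub, Real.exp_sub, Real.exp_log (bsdProduct_pos x),
      Real.exp_log hT, mul_comm (r : ℝ), Real.exp_mul, Real.exp_log (by linarith), Real.rpow_natCast]
    have : Real.log x ^ r ≠ 0 := (pow_pos (by linarith) r).ne'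
    field_simp
  have h2 := abs_le.1 hx
  rw [h1]
  constructor
  · gcongr
    linarith
  · gcongr
    linarith

/-- **Equivalent forms of the exact order of magnitude.** -/
theorem order_tfae' (H : Hyp a b F r) : List.TFAE [
    ∃ c C : ℝ, 0 < c ∧ ∀ᶠ x : ℝ in atTop, c * Real.log x ^ r ≤ bsdProduct a b x ∧
      bsdProduct a b x ≤ C * Real.log x ^ r,
    ∃ S ⊆ Ioi (1 : ℝ), volume S ≠ 0 ∧ ∀ h ∈ S, ∃ K : ℝ, ∀ᶠ x : ℝ in atTop,
      bsdProduct a b (h * x) ≤ K * bsdProduct a b x,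
    ∃ S ⊆ Ioi (1 : ℝ), volume S ≠ 0 ∧ ∀ l ∈ S, ∃ K : ℝ, ∀ᶠ x : ℝ in atTop,
      bsdProduct a b (x ^ l) ≤ K * bsdProduct a b x] := by
  have hvol : volume (Ioi (1 : ℝ)) ≠ 0 := by simp
  tfae_have 1 → 3 := by
    rintro ⟨c, C, hc, h⟩
    refine ⟨Ioi 1, subset_rfl, hvol, fun l hl => ⟨|C| * l ^ r / c, ?_⟩⟩
    have hl0 : 0 < l := lt_trans one_pos hl
    have h1 : Tendsto (fun x : ℝ => x ^ l) atTop atTop := tendsto_rpow_atTop hl0
    filter_upwards [h, h1.eventually h, eventually_gt_atTop 1] with x hx hx2 hx1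
    have hlx : 0 < Real.log x := Real.log_pos hx1
    have e1 := hx.1
    have e2 := hx2.2
    rw [Real.log_rpow (by linarith), mul_pow] at e2
    calc bsdProduct a b (x ^ l) ≤ C * (l ^ r * Real.log x ^ r) := e2
      _ ≤ |C| * (l ^ r * Real.log x ^ r) :=
          mul_le_mul_of_nonneg_right (le_abs_self C) (by positivity)
      _ = |C| * l ^ r / c * (c * Real.log x ^ r) := by field_simp
      _ ≤ |C| * l ^ r / c * bsdProduct a b x := by gcongr
  tfae_have 1 → 2 := by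
    rintro ⟨c, C, hc, h⟩
    refine ⟨Ioi 1, subset_rfl, hvol, fun k hk => ⟨|C| * 2 ^ r / c, ?_⟩⟩
    have hk0 : 0 < k := lt_trans one_pos hk
    have h1 : Tendsto (fun x : ℝ => k * x) atTop atTop := tendsto_id.const_mul_atTop hk0
    filter_upwards [h, h1.eventually h, eventually_gt_atTop 1, eventually_ge_atTop k]
      with x hx hx2 hx1 hxk
    have hlx : 0 < Real.log x := Real.log_pos hx1
    have e1 := hx.1
    have e2 := hx2.2
    have e3 : Real.log (k * x) ≤ 2 * Real.log x := by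
      rw [Real.log_mul hk0.ne' (by linarith)]
      have := Real.log_le_log hk0 hxk
      linarith
    have hk1 : (1 : ℝ) < k := hk
    have e4 : 0 ≤ Real.log (k * x) := Real.log_nonneg (by nlinarith)
    calc bsdProduct a b (k * x) ≤ C * Real.log (k * x) ^ r := e2
      _ ≤ |C| * (2 * Real.log x) ^ r :=
          mul_le_mul (le_abs_self C) (pow_le_pow_left₀ e4 e3 r) (by positivity) (abs_nonneg _)
      _ = |C| * 2 ^ r / c * (c * Real.log x ^ r) := by rw [mul_pow]; field_simp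
      _ ≤ |C| * 2 ^ r / c * bsdProduct a b x := by gcongr
  have hKpos : ∀ {K x y : ℝ}, bsdProduct a b y ≤ K * bsdProduct a b x → 0 < K := by
    intro K x y h
    by_contra hneg
    push Not at hneg
    have := mul_nonpos_of_nonpos_of_nonneg hneg (bsdProduct_pos (a := a) (b := b) x).le
    linarith [bsdProduct_pos (a := a) (b := b) y]
  tfae_have 2 → 1 := by
    rintro ⟨S, hS, hpos, hK⟩
    refine order_of_bdd H ?_
    have hK' : ∀ h ∈ Real.log '' S, ∃ K : ℝ, ∀ᶠ u : ℝ in atTop,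
        lgP a b (u + h) ≤ lgP a b u + K := by
      rintro _ ⟨h, hh, rfl⟩
      have hh0 : 0 < h := lt_trans one_pos (hS hh)
      obtain ⟨K, h1⟩ := hK h hh
      refine ⟨Real.log K, ?_⟩
      filter_upwards [ev_exp.1 h1] with u hu
      have hK0 := hKpos hu
      rwa [exp_mul_add hh0, le_mul_iff hK0] at hu
    obtain ⟨h0, hh0⟩ := nonempty_of_measure_ne_zero (vol_log_image hS hpos)
    obtain ⟨K0, hK0⟩ := hK' h0 hh0
    have hz := nz_add H (log_image_pos hS hh0) hK0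
    refine add_bdd (tail_dvu H hz) (log_image_pos hS) (vol_log_image hS hpos) fun h hh => ?_
    obtain ⟨K, hK1⟩ := hK' h hh
    refine ⟨K + 1, ?_⟩
    have h1 := (dvu_add H (le_of_lt (log_image_pos hS hh))).eventually
      (gt_mem_nhds (show (0 : ℝ) < 1 by norm_num))
    filter_upwards [h1, hK1] with u h2 h3
    linarith
  tfae_have 3 → 1 := by
    rintro ⟨S, hS, hpos, hK⟩
    refine order_of_bdd H ?_
    have hK' : ∀ l ∈ S, ∃ K : ℝ, ∀ᶠ u : ℝ in atTop,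
        lgP a b (l * u) ≤ lgP a b u + K := by
      intro l hl
      obtain ⟨K, h1⟩ := hK l hl
      refine ⟨Real.log K, ?_⟩
      filter_upwards [ev_exp.1 h1] with u hu
      have hK0 := hKpos hu
      rwa [exp_rpow', le_mul_iff hK0] at hu
    obtain ⟨h0, hh0⟩ := nonempty_of_measure_ne_zero hpos
    obtain ⟨K0, hK0⟩ := hK' h0 hh0
    have hz := nz_mul H (hS hh0) hK0
    refine mul_bdd (tail_dvu H hz) hS hpos fun l hl => ?_
    obtain ⟨K, hK1⟩ := hK' l hl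
    refine ⟨K, ?_⟩
    have hl1 : (1 : ℝ) < l := hS hl
    filter_upwards [hK1, eventually_ge_atTop 1] with u h3 h4
    rw [dvu_mul H hl1.le h4]
    have : 0 ≤ (r : ℝ) * Real.log l := mul_nonneg (Nat.cast_nonneg r) (Real.log_nonneg hl1.le)
    linarith
  tfae_finish

end Pool.Agent.Y686.TW
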