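import Pool.Agent.Y686.TW.RS
import Pool.Agent.Y686.TW.Equiv
import Pool.Agent.TH949.TX.BSDE

/-!
# The sums of Mestre and Nagao of one elliptic curve
-/

set_option autoImplicit false

open MeasureTheory Filter Topology Set Classical
open CongruenceSubgroup
open scoped MatrixGroups
open Pool.Agent.W263.BSD
open Pool.Agent.TH941 (cr gg Hecke Belongs)
open Pool.Agent.W165.RS (ac)

namespace Pool.Agent.Y686.TW

variable {a b : ℤ}

/-- the terms of the Rankin-Selberg sum at the good primes -/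
noncomputable def bb (a b : ℤ) (p : ℕ) : ℝ :=
  if GoodPrime a b p then (((p : ℝ) - pointCount a b p) ^ 2 - p) / (p : ℝ) ^ 2 else 0

/-- `log (N_p / p)` -/
noncomputable def dd (a b : ℤ) (p : ℕ) : ℝ :=
  if GoodPrime a b p then Real.log (((pointCount a b p : ℝ) + 1) / p) else 0

/-- `a_p / p` -/
noncomputable def ap (a b : ℤ) (p : ℕ) : ℝ :=
  if GoodPrime a b p then ((p : ℝ) - pointCount a b p) / p else 0

/-- `1 / p` -/
noncomputable def ip (a b : ℤ) (p : ℕ) : ℝ := if GoodPrime a b p then (1 : ℝ) / p else 0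

theorem zero_of {f : ℕ → ℝ} {g : ℕ → ℝ} (hf : f = fun p => if GoodPrime a b p then g p else 0) :
    f 0 = 0 := by
  rw [hf]
  simp only
  rw [if_neg]
  exact fun h => Nat.not_prime_zero h.1

theorem bb_zero : bb a b 0 = 0 := zero_of (a := a) (b := b) (g := fun p =>
  (((p : ℝ) - pointCount a b p) ^ 2 - p) / (p : ℝ) ^ 2) rfl

/-- the logarithmically weighted mean of a sequence -/
noncomputable def wm (c : ℕ → ℝ) (U : ℝ) : ℝ :=
  (∑ n ∈ Finset.range (⌊Real.exp U⌋₊ + 1), Real.log n * c n) / U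

/-- `log P(e^u)` as a sum -/
theorem lgP_eq (u : ℝ) : lgP a b u = stp (dd a b) u := by
  unfold lgP stp
  rw [log_bsdProduct]
  unfold rieszMean
  simp only [pow_zero, one_mul]
  rw [Finset.sum_filter]
  rfl

/-- Abel summation -/
theorem wm_dd {U : ℝ} (hU : 0 < U) :
    wm (dd a b) U = lgP a b U - (∫ v in (0 : ℝ)..U, lgP a b v) / U := by
  have h1 := (Pool.Agent.TH231.RieszInt.t_riesz_integral (G := GoodPrime a b)
    (fun p hp => hp.1.one_le) (fun p => Real.log (((pointCount a b p : ℝ) + 1) / p)) hU).2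
  have h2 : ∀ v : ℝ, ∑ p ∈ (Finset.range (⌊Real.exp v⌋₊ + 1)).filter (GoodPrime a b),
      Real.log (((pointCount a b p : ℝ) + 1) / p) = lgP a b v := by
    intro v
    rw [lgP_eq, Finset.sum_filter]
    rfl
  simp only [h2] at h1
  rw [← h1, lgP_eq]
  unfold wm stp
  rw [Finset.sum_filter, Finset.sum_div, ← Finset.sum_sub_distrib]
  refine Finset.sum_congr rfl fun n _ => ?_
  unfold dd
  split_ifs with h
  · field_simp
    ring
  · simp

/-! ### The Rankin-Selberg sum -/

theorem bb_conv {N : ℕ} [NeZero N] {f : CuspForm (Gamma0 N : Subgroup (GL (Fin 2) ℝ)) 2}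
    (hf : Hecke f) (hΔ : 4 * a ^ 3 + 27 * b ^ 2 ≠ 0) (hb : Belongs a b f) :
    ∃ C : ℝ, Tendsto (stp (bb a b)) atTop (𝓝 C) := by
  obtain ⟨C0, hC0⟩ := hf.cr_limit
  have h1 := PS.conv hf.ps hC0
  obtain ⟨D, hD⟩ := good_of_large hΔ
  have hcr : ∀ p : ℕ, GoodPrime a b p → cr f p = bb a b p := by
    intro p hg
    unfold cr bb gg
    rw [if_pos hg.1, if_pos hg, hb p hg]
    have h4 : ‖(p : ℂ) - (pointCount a b p : ℂ)‖ ^ 2 = ((p : ℝ) - pointCount a b p) ^ 2 := by
      have : (p : ℂ) - (pointCount a b p : ℂ) = (((p : ℝ) - pointCount a b p : ℝ) : ℂ) := by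
        push_cast; ring
      rw [this, Complex.norm_real, Real.norm_eq_abs, sq_abs]
    rw [h4]
    have hp' : (p : ℝ) ≠ 0 := by exact_mod_cast hg.1.ne_zero
    field_simp
  have h2 : ∀ᶠ u : ℝ in atTop, stp (bb a b) u =
      stp (cr f) u - ∑ n ∈ Finset.range (D + 1), (cr f n - bb a b n) := by
    filter_upwards [eventually_ge_atTop (Real.log (D + 1))] with u hu
    have hle : D ≤ ⌊Real.exp u⌋₊ := by
      refine Nat.le_floor ?_
      rw [Real.log_le_iff_le_exp (by positivity)] at hu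
      linarith
    have h3 : ∑ n ∈ Finset.range (D + 1), (cr f n - bb a b n) =
        ∑ n ∈ Finset.range (⌊Real.exp u⌋₊ + 1), (cr f n - bb a b n) := by
      refine Finset.sum_subset ?_ fun n _ hn2 => ?_
      · intro n hn
        rw [Finset.mem_range] at hn ⊢
        omega
      · have hn3 : D < n := by
          rw [Finset.mem_range] at hn2
          omega
        by_cases hp : n.Prime
        · rw [hcr n (hD n hp hn3), sub_self]
        · unfold cr bb
          rw [if_neg hp, if_neg (fun h => hp h.1), sub_self]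
    rw [h3, Finset.sum_sub_distrib]
    unfold stp
    ring
  refine ⟨_, ((h1.sub_const _).congr' (h2.mono fun u hu => hu.symm))⟩

/-- the logarithmic mean of the Rankin-Selberg terms -/
theorem wm_bb {N : ℕ} [NeZero N] {f : CuspForm (Gamma0 N : Subgroup (GL (Fin 2) ℝ)) 2}
    (hf : Hecke f) (hΔ : 4 * a ^ 3 + 27 * b ^ 2 ≠ 0) (hb : Belongs a b f) :
    Tendsto (wm (bb a b)) atTop (𝓝 0) := by
  obtain ⟨C, hC⟩ := bb_conv hf hΔ hb
  exact log_mean hC bb_zero

/-! ### Mertens -/

theorem floor_log {u : ℝ} (hu : 1 ≤ u) : |Real.log (⌊Real.exp u⌋₊ : ℝ) - u| ≤ 1 := by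
  have h1 : 2 ≤ Real.exp u := by
    have := Real.add_one_le_exp u
    linarith
  have h2 : (⌊Real.exp u⌋₊ : ℝ) ≤ Real.exp u := Nat.floor_le (Real.exp_pos u).le
  have h3 : Real.exp u - 1 < (⌊Real.exp u⌋₊ : ℝ) := Nat.sub_one_lt_floor _
  have h4 : (0 : ℝ) < (⌊Real.exp u⌋₊ : ℝ) := by linarith
  have h5 : Real.log (⌊Real.exp u⌋₊ : ℝ) ≤ u := by
    rw [Real.log_le_iff_le_exp h4]; exact h2
  have h6 : u - 1 ≤ Real.log (⌊Real.exp u⌋₊ : ℝ) := by
    rw [Real.le_log_iff_exp_le h4, Real.exp_sub]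
    have e1 : Real.exp 1 ≥ 2 := by
      have := Real.add_one_le_exp (1 : ℝ)
      linarith
    have e2 : Real.exp u / Real.exp 1 ≤ Real.exp u / 2 :=
      div_le_div_of_nonneg_left (Real.exp_pos u).le (by norm_num) e1
    linarith
  rw [abs_le]
  constructor <;> linarith

theorem wm_ip (hΔ : 4 * a ^ 3 + 27 * b ^ 2 ≠ 0) : Tendsto (wm (ip a b)) atTop (𝓝 1) := by
  obtain ⟨C, hC⟩ := Pool.Agent.Helper923.HMertens.mertens_log
  obtain ⟨D, hD⟩ := good_of_large hΔ
  set K : ℝ := ∑ n ∈ Finset.range (D + 1), (if n.Prime then Real.log n / n else 0) with hK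
  have hC0 : 0 ≤ C := (abs_nonneg _).trans (hC 1 le_rfl)
  have hK0 : 0 ≤ K := by
    refine Finset.sum_nonneg fun n _ => ?_
    split_ifs
    · have : 0 ≤ Real.log (n : ℝ) := Real.log_natCast_nonneg n
      positivity
    · exact le_rfl
  have key : ∀ u : ℝ, 1 ≤ u →
      |∑ n ∈ Finset.range (⌊Real.exp u⌋₊ + 1), Real.log n * ip a b n - u| ≤ C + 1 + K := by
    intro u hu
    set M := ⌊Real.exp u⌋₊ with hM
    have hM1 : 1 ≤ M := by
      refine Nat.le_floor ?_
      push_cast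
      exact Real.one_le_exp (by linarith)
    have h1 := hC M hM1
    have h2 : ∑ p ∈ (Finset.Icc 1 M).filter Nat.Prime, Real.log p / p =
        ∑ n ∈ Finset.range (M + 1), (if n.Prime then Real.log n / n else 0) := by
      rw [Finset.sum_filter]
      refine Finset.sum_subset ?_ fun n hn hn2 => ?_
      · intro n hn
        rw [Finset.mem_Icc] at hn
        rw [Finset.mem_range]
        omega
      · rw [Finset.mem_range] at hn
        rw [Finset.mem_Icc] at hn2
        have : n = 0 := by omega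
        rw [this, if_neg Nat.not_prime_zero]
    rw [h2] at h1
    -- difference
    have h3 : |∑ n ∈ Finset.range (M + 1), (if n.Prime then Real.log n / n else 0) -
        ∑ n ∈ Finset.range (M + 1), Real.log n * ip a b n| ≤ K := by
      rw [← Finset.sum_sub_distrib]
      refine (Finset.abs_sum_le_sum_abs _ _).trans ?_
      have h4 : ∀ n : ℕ, |(if n.Prime then Real.log n / n else 0) - Real.log n * ip a b n| ≤
          if n ∈ Finset.range (D + 1) then (if n.Prime then Real.log n / n else 0) else 0 := by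
        intro n
        unfold ip
        have hl : 0 ≤ Real.log (n : ℝ) := Real.log_natCast_nonneg n
        by_cases hp : n.Prime
        · by_cases hg : GoodPrime a b n
          · rw [if_pos hp, if_pos hg]
            have : Real.log (n : ℝ) / n - Real.log n * (1 / n) = 0 := by ring
            rw [this, abs_zero]
            split_ifs
            · positivity
            · exact le_rfl
          · have hn : n ∈ Finset.range (D + 1) := by
              rw [Finset.mem_range]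
              by_contra hne
              exact hg (hD n hp (by omega))
            rw [if_pos hp, if_neg hg, if_pos hn, mul_zero, sub_zero, abs_of_nonneg (by positivity)]
        · rw [if_neg hp, if_neg (fun h => hp h.1), mul_zero, sub_zero, abs_zero]
          split_ifs <;> exact le_rfl
      refine (Finset.sum_le_sum fun n _ => h4 n).trans ?_
      rw [← Finset.sum_filter]
      refine Finset.sum_le_sum_of_subset_of_nonneg ?_ fun n _ _ => ?_
      · intro n hn
        exact (Finset.mem_filter.1 hn).2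
      · split_ifs
        · have : 0 ≤ Real.log (n : ℝ) := Real.log_natCast_nonneg n
          positivity
        · exact le_rfl
    have h5 := floor_log hu
    rw [← hM] at h5
    have e1 := abs_le.1 h1
    have e2 := abs_le.1 h3
    have e3 := abs_le.1 h5
    rw [abs_le]
    constructor <;> linarith
  have h6 : Tendsto (fun u : ℝ => 1 + (∑ n ∈ Finset.range (⌊Real.exp u⌋₊ + 1), Real.log n * ip a b n - u) / u)
      atTop (𝓝 (1 + 0)) := by
    refine Tendsto.const_add 1 ?_
    refine squeeze_zero_norm' (a := fun u => (C + 1 + K) / u) ?_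
      (tendsto_const_nhds.div_atTop tendsto_id)
    filter_upwards [eventually_ge_atTop 1] with u hu
    have hu0 : 0 < u := by linarith
    rw [norm_div, Real.norm_eq_abs, Real.norm_of_nonneg hu0.le]
    exact div_le_div_of_nonneg_right (key u hu) hu0.le
  rw [add_zero] at h6
  refine h6.congr' ?_
  filter_upwards [eventually_gt_atTop 0] with u hu
  unfold wm
  field_simp
  ring

/-! ### The expansion of the logarithm -/

theorem dd_exp {p : ℕ} (hg : GoodPrime a b p) (h25 : 25 ≤ p) :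
    |dd a b p + ap a b p - ip a b p / 2 + bb a b p / 2| ≤ 70 * (p : ℝ) ^ (-(3 / 2) : ℝ) := by
  have hp25 : (25 : ℝ) ≤ p := by exact_mod_cast h25
  have hp0 : (0 : ℝ) < p := by linarith
  set A : ℝ := (p : ℝ) - pointCount a b p with hA
  have hh : |A| ≤ 2 * √p := Pool.Agent.TH270.MS.EQ.hasse' hg
  set s : ℝ := √(p : ℝ) with hs
  have hs2 : s ^ 2 = p := Real.sq_sqrt hp0.le
  have hs5 : 5 ≤ s := by
    rw [hs]
    refine Real.le_sqrt_of_sq_le ?_
    linarith
  have hs0 : 0 < s := by linarith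
  set x : ℝ := (A - 1) / p with hx
  have hxs : |x| ≤ 3 / s := by
    rw [hx, abs_div, abs_of_pos hp0, div_le_div_iff₀ hp0 hs0]
    have h1 : |A - 1| ≤ 2 * s + 1 := (abs_sub _ _).trans (by rw [abs_one]; linarith)
    calc |A - 1| * s ≤ (2 * s + 1) * s := mul_le_mul_of_nonneg_right h1 hs0.le
      _ ≤ 3 * p := by rw [← hs2]; nlinarith
  have hx1 : |x| ≤ 3 / 5 := hxs.trans (div_le_div_of_nonneg_left (by norm_num) (by norm_num) hs5)
  have hN : ((pointCount a b p : ℝ) + 1) / p = 1 - x := by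
    rw [hx, hA]
    field_simp
    ring
  have hlog := Real.abs_log_sub_add_sum_range_le (x := x) (by linarith) 2
  rw [Finset.sum_range_succ, Finset.sum_range_one] at hlog
  norm_num at hlog
  have h3 : |x| ^ 3 / (1 - |x|) ≤ 5 / 2 * (27 * (p : ℝ) ^ (-(3 / 2) : ℝ)) / 1 := by
    have e1 : |x| ^ 3 ≤ 27 * (p : ℝ) ^ (-(3 / 2) : ℝ) := by
      have e2 : |x| ^ 3 ≤ (3 / s) ^ 3 := pow_le_pow_left₀ (abs_nonneg _) hxs 3
      have e3 : (3 / s) ^ 3 = 27 * (p : ℝ) ^ (-(3 / 2) : ℝ) := by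
        have e4 : (p : ℝ) ^ (-(3 / 2) : ℝ) = (s ^ 3)⁻¹ := by
          rw [Real.rpow_neg hp0.le, hs, Real.sqrt_eq_rpow, ← Real.rpow_natCast, ← Real.rpow_mul hp0.le]
          norm_num
        rw [e4, div_pow]
        ring
      rwa [e3] at e2
    have e5 : 0 < 1 - |x| := by linarith
    rw [div_one, div_le_iff₀ e5]
    have e6 : 0 ≤ 27 * (p : ℝ) ^ (-(3 / 2) : ℝ) := by positivity
    nlinarith
  rw [div_one] at h3
  have hddp : dd a b p = Real.log (1 - x) := by
    unfold dd
    rw [if_pos hg, hN]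
  have hap : ap a b p = A / p := by unfold ap; rw [if_pos hg]
  have hip : ip a b p = 1 / p := by unfold ip; rw [if_pos hg]
  have hbb : bb a b p = (A ^ 2 - p) / (p : ℝ) ^ 2 := by unfold bb; rw [if_pos hg]
  have hsplit : dd a b p + ap a b p - ip a b p / 2 + bb a b p / 2 =
      (x + x ^ 2 / 2 + Real.log (1 - x)) + (2 * A - 1) / (2 * (p : ℝ) ^ 2) := by
    rw [hddp, hap, hip, hbb, hx]
    field_simp
    ring
  have h4 : |(2 * A - 1) / (2 * (p : ℝ) ^ 2)| ≤ 5 / 2 * (p : ℝ) ^ (-(3 / 2) : ℝ) := by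
    have e4 : (p : ℝ) ^ (-(3 / 2) : ℝ) = (s ^ 3)⁻¹ := by
      rw [Real.rpow_neg hp0.le, hs, Real.sqrt_eq_rpow, ← Real.rpow_natCast, ← Real.rpow_mul hp0.le]
      norm_num
    rw [e4, abs_div, abs_of_pos (by positivity : (0 : ℝ) < 2 * (p : ℝ) ^ 2), ← hs2]
    have e5 : |2 * A - 1| ≤ 5 * s := by
      refine (abs_sub _ _).trans ?_
      rw [abs_mul, abs_one, abs_of_pos (by norm_num : (0 : ℝ) < 2)]
      linarith
    rw [div_le_iff₀ (by positivity)]
    calc |2 * A - 1| ≤ 5 * s := e5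
      _ = 5 / 2 * (s ^ 3)⁻¹ * (2 * (s ^ 2) ^ 2) := by
          field_simp
  rw [hsplit]
  refine (abs_add_le _ _).trans ?_
  have e6 : (x + x ^ 2 / 2 + Real.log (1 - x)) = x + x ^ 2 / 2 + Real.log (1 - x) := rfl
  have e7 : 0 ≤ (p : ℝ) ^ (-(3 / 2) : ℝ) := by positivity
  have h5 := hlog.trans h3
  linarith

/-- the error terms -/
noncomputable def ee (a b : ℤ) (p : ℕ) : ℝ := dd a b p + ap a b p - ip a b p / 2 + bb a b p / 2

theorem ee_not {p : ℕ} (h : ¬ GoodPrime a b p) : ee a b p = 0 := by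
  unfold ee dd ap ip bb
  simp only [if_neg h]
  ring

theorem summable_err : Summable fun n : ℕ => Real.log (n : ℝ) * (70 * (n : ℝ) ^ (-(3 / 2) : ℝ)) := by
  have h1 : Summable fun n : ℕ => 280 * (n : ℝ) ^ (-(5 / 4) : ℝ) :=
    (Real.summable_nat_rpow.2 (by norm_num)).mul_left 280
  refine Summable.of_nonneg_of_le (fun n => ?_) (fun n => ?_) h1
  · have := Real.log_natCast_nonneg n
    positivity
  · rcases Nat.eq_zero_or_pos n with rfl | hn
    · simp
    · have hn0 : (0 : ℝ) < n := by exact_mod_cast hn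
      have h2 : Real.log (n : ℝ) ≤ (n : ℝ) ^ (1 / 4 : ℝ) / (1 / 4) := Real.log_le_rpow_div hn0.le (by norm_num)
      calc Real.log (n : ℝ) * (70 * (n : ℝ) ^ (-(3 / 2) : ℝ)) ≤
          (n : ℝ) ^ (1 / 4 : ℝ) / (1 / 4) * (70 * (n : ℝ) ^ (-(3 / 2) : ℝ)) := by gcongr
        _ = 280 * ((n : ℝ) ^ (1 / 4 : ℝ) * (n : ℝ) ^ (-(3 / 2) : ℝ)) := by ring
        _ = 280 * (n : ℝ) ^ (-(5 / 4) : ℝ) := by
          rw [← Real.rpow_add hn0]
          norm_num

theorem wm_ee (a b : ℤ) : Tendsto (wm (ee a b)) atTop (𝓝 0) := by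
  set K : ℝ := (∑ n ∈ Finset.range 25, |Real.log n * ee a b n|) +
    ∑' n : ℕ, Real.log (n : ℝ) * (70 * (n : ℝ) ^ (-(3 / 2) : ℝ)) with hK
  have key : ∀ M : ℕ, |∑ n ∈ Finset.range M, Real.log n * ee a b n| ≤ K := by
    intro M
    refine (Finset.abs_sum_le_sum_abs _ _).trans ?_
    have h1 : ∀ n : ℕ, |Real.log n * ee a b n| ≤
        (if n ∈ Finset.range 25 then |Real.log n * ee a b n| else 0) +
          Real.log (n : ℝ) * (70 * (n : ℝ) ^ (-(3 / 2) : ℝ)) := by
      intro n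
      have hl : 0 ≤ Real.log (n : ℝ) := Real.log_natCast_nonneg n
      have h0 : 0 ≤ Real.log (n : ℝ) * (70 * (n : ℝ) ^ (-(3 / 2) : ℝ)) := by positivity
      split_ifs with h
      · linarith
      · rw [zero_add, abs_mul, abs_of_nonneg hl]
        refine mul_le_mul_of_nonneg_left ?_ hl
        by_cases hg : GoodPrime a b n
        · rw [Finset.mem_range] at h
          exact dd_exp hg (by omega)
        · rw [ee_not hg, abs_zero]
          positivity
    refine (Finset.sum_le_sum fun n _ => h1 n).trans ?_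
    rw [Finset.sum_add_distrib]
    refine add_le_add ?_ (summable_err.sum_le_tsum _ fun n _ => ?_)
    · rw [← Finset.sum_filter]
      refine Finset.sum_le_sum_of_subset_of_nonneg ?_ fun _ _ _ => abs_nonneg _
      intro n hn
      exact (Finset.mem_filter.1 hn).2
    · have := Real.log_natCast_nonneg n
      positivity
  refine squeeze_zero_norm' (a := fun u => K / u) ?_ (tendsto_const_nhds.div_atTop tendsto_id)
  filter_upwards [eventually_gt_atTop 0] with u hu
  unfold wm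
  rw [norm_div, Real.norm_eq_abs, Real.norm_of_nonneg hu.le]
  exact div_le_div_of_nonneg_right (key _) hu.le

/-- the sum of Mestre and Nagao of the curve `y² = x³ + a x + b` -/
noncomputable def mes (a b : ℤ) (u : ℝ) : ℝ := wm (ap a b) u

/-- **The sum of Mestre and Nagao and the product.** -/
theorem mes_add {N : ℕ} [NeZero N] {f : CuspForm (Gamma0 N : Subgroup (GL (Fin 2) ℝ)) 2}
    (hf : Hecke f) (hΔ : 4 * a ^ 3 + 27 * b ^ 2 ≠ 0) (hb : Belongs a b f) :
    Tendsto (fun u => mes a b u + wm (dd a b) u) atTop (𝓝 (1 / 2)) := by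
  have h1 := ((wm_ee a b).add ((wm_ip hΔ).div_const 2)).sub ((wm_bb hf hΔ hb).div_const 2)
  rw [zero_add, zero_div, sub_zero] at h1
  refine h1.congr fun u => ?_
  have key : ∑ n ∈ Finset.range (⌊Real.exp u⌋₊ + 1), Real.log n * ee a b n +
      (∑ n ∈ Finset.range (⌊Real.exp u⌋₊ + 1), Real.log n * ip a b n) / 2 -
      (∑ n ∈ Finset.range (⌊Real.exp u⌋₊ + 1), Real.log n * bb a b n) / 2 =
      ∑ n ∈ Finset.range (⌊Real.exp u⌋₊ + 1), Real.log n * ap a b n +
      ∑ n ∈ Finset.range (⌊Real.exp u⌋₊ + 1), Real.log n * dd a b n := by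
    rw [Finset.sum_div, Finset.sum_div, ← Finset.sum_add_distrib, ← Finset.sum_add_distrib,
      ← Finset.sum_sub_distrib]
    refine Finset.sum_congr rfl fun n _ => ?_
    unfold ee
    ring
  unfold mes wm
  rw [← add_div, ← key]
  ring

/-- all the hypotheses -/
structure Full (a b : ℤ) (F : ℂ → ℂ) (r : ℕ) : Prop extends Hyp a b F r where
  tx : Pool.Agent.TH949.TX.Hyp a b F r
  mes : Tendsto (fun u => mes a b u + wm (dd a b) u) atTop (𝓝 (1 / 2))

variable {F : ℂ → ℂ} {r : ℕ}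

/-- **Under the Riemann hypothesis the sum of Mestre and Nagao determines the deviation.** -/
theorem mes_dvu (H : Full a b F r) (hz : ∀ s : ℂ, 1 < s.re → F s ≠ 0) :
    Tendsto (fun u => (mes a b u - (1 / 2 - r)) - (-dvu a b F r u)) atTop (𝓝 0) := by
  obtain ⟨-, h1⟩ := Pool.Agent.TH949.TX.riesz_one H.tx.disc H.tx.rs H.tx.gr H.tx.lser H.tx.ord hz
  have h2 := (H.mes.sub_const (1 / 2)).add (h1.sub_const (Real.log (TC F r) - r))
  have e0 : Pool.Agent.TH949.TX.TG F r = TC F r := rfl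
  rw [e0] at h2
  have e1 : (1 / 2 - 1 / 2 : ℝ) + (Real.log (TC F r) - r - (Real.log (TC F r) - r)) = 0 := by ring
  rw [e1] at h2
  refine h2.congr' ?_
  filter_upwards [eventually_ge_atTop 1] with u hu
  rw [wm_dd (by linarith), dvu_eq' H.toHyp hu]
  unfold lgP
  ring

/-! ### Growth -/

theorem stp_log (c : ℕ → ℝ) {n : ℕ} (hn : 1 ≤ n) :
    stp c (Real.log n) = ∑ m ∈ Finset.range (n + 1), c m := by
  unfold stp
  rw [Real.exp_log (by exact_mod_cast hn), Nat.floor_natCast]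

/-- Abel summation the other way -/
theorem abel_upper {d : ℕ → ℝ} {C : ℝ} (hC : 0 ≤ C) {n0 : ℕ} (hn0 : 3 ≤ n0)
    (h : ∀ n : ℕ, n0 ≤ n → ∑ m ∈ Finset.range (n + 1), Real.log m * d m ≤ C * Real.log n ^ 2) :
    ∃ K : ℝ, ∀ n : ℕ, n0 ≤ n → ∑ m ∈ Finset.range (n + 1), d m ≤ K + 2 * C * Real.log n := by
  set A : ℕ → ℝ := fun n => ∑ m ∈ Finset.range (n + 1), d m -
    (∑ m ∈ Finset.range (n + 1), Real.log m * d m) / Real.log n with hA
  have hlog : ∀ n : ℕ, n0 ≤ n → 1 < Real.log (n : ℝ) := by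
    intro n hn
    have h3 : (3 : ℝ) ≤ n := by exact_mod_cast hn0.trans hn
    have h4 : Real.exp 1 < 3 := by
      have := Real.exp_one_lt_d9
      linarith
    rw [Real.lt_log_iff_exp_lt (by linarith)]
    linarith
  have hstep : ∀ n : ℕ, n0 ≤ n → A n ≤ A n0 + C * (Real.log n - Real.log n0) := by
    intro n hn
    induction n, hn using Nat.le_induction with
    | base => simp
    | succ n hn ih =>
      have l1 := hlog n hn
      have l2 := hlog (n + 1) (by omega)
      have hn1 : (0 : ℝ) < n := by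
        have : 0 < n := by omega
        exact_mod_cast this
      have l3 : Real.log (n : ℝ) ≤ Real.log ((n + 1 : ℕ) : ℝ) :=
        Real.log_le_log hn1 (by push_cast; linarith)
      set N : ℝ := ∑ m ∈ Finset.range (n + 1), Real.log m * d m with hN
      have e1 : A (n + 1) = A n + N * (1 / Real.log n - 1 / Real.log ((n + 1 : ℕ) : ℝ)) := by
        simp only [hA]
        rw [Finset.sum_range_succ (fun m => d m) (n + 1),
          Finset.sum_range_succ (fun m => Real.log (m : ℝ) * d m) (n + 1), ← hN]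
        have : Real.log ((n + 1 : ℕ) : ℝ) ≠ 0 := by linarith
        field_simp
        ring
      have e2 : 1 / Real.log (n : ℝ) - 1 / Real.log ((n + 1 : ℕ) : ℝ) =
          (Real.log ((n + 1 : ℕ) : ℝ) - Real.log n) / (Real.log n * Real.log ((n + 1 : ℕ) : ℝ)) := by
        field_simp
      have e3 : 0 ≤ 1 / Real.log (n : ℝ) - 1 / Real.log ((n + 1 : ℕ) : ℝ) := by
        rw [e2]
        exact div_nonneg (by linarith) (by positivity)
      have e4 : N * (1 / Real.log n - 1 / Real.log ((n + 1 : ℕ) : ℝ)) ≤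
          C * (Real.log ((n + 1 : ℕ) : ℝ) - Real.log n) := by
        calc N * (1 / Real.log n - 1 / Real.log ((n + 1 : ℕ) : ℝ)) ≤
            C * Real.log n ^ 2 * (1 / Real.log n - 1 / Real.log ((n + 1 : ℕ) : ℝ)) :=
              mul_le_mul_of_nonneg_right (h n hn) e3
          _ = C * (Real.log ((n + 1 : ℕ) : ℝ) - Real.log n) *
              (Real.log n / Real.log ((n + 1 : ℕ) : ℝ)) := by
              rw [e2]
              field_simp
          _ ≤ C * (Real.log ((n + 1 : ℕ) : ℝ) - Real.log n) * 1 := by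
              refine mul_le_mul_of_nonneg_left ?_ (mul_nonneg hC (by linarith))
              rw [div_le_one (by linarith)]
              exact l3
          _ = _ := mul_one _
      rw [e1]
      linarith
  refine ⟨A n0 - C * Real.log n0, fun n hn => ?_⟩
  have h1 := hstep n hn
  have l1 := hlog n hn
  have h2 : (∑ m ∈ Finset.range (n + 1), Real.log m * d m) / Real.log n ≤ C * Real.log n := by
    rw [div_le_iff₀ (by linarith)]
    have := h n hn
    nlinarith
  have h3 : ∑ m ∈ Finset.range (n + 1), d m = A n +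
      (∑ m ∈ Finset.range (n + 1), Real.log m * d m) / Real.log n := by
    simp only [hA]; ring
  rw [h3]
  linarith

/-- a bound for the weighted sums bounds the sums -/
theorem linear_of_wm {d : ℕ → ℝ} {C : ℝ} (h : ∀ᶠ u : ℝ in atTop, wm d u ≤ C * u) :
    ∃ C' : ℝ, ∀ᶠ u : ℝ in atTop, stp d u ≤ C' * u := by
  obtain ⟨U, hU⟩ := eventually_atTop.1 h
  obtain ⟨n0, hn0⟩ := exists_nat_ge (max 3 (Real.exp U))
  have hn3 : 3 ≤ n0 := by
    have : (3 : ℝ) ≤ n0 := (le_max_left _ _).trans hn0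
    exact_mod_cast this
  have h1 : ∀ n : ℕ, n0 ≤ n → ∑ m ∈ Finset.range (n + 1), Real.log m * d m ≤ |C| * Real.log n ^ 2 := by
    intro n hn
    have hn1 : (0 : ℝ) < n := by
      have : 0 < n := by omega
      exact_mod_cast this
    have h2 : Real.exp U ≤ n := ((le_max_right _ _).trans hn0).trans (by exact_mod_cast hn)
    have h3 : U ≤ Real.log n := by rwa [Real.le_log_iff_exp_le hn1]
    have h4 := hU _ h3
    have hl : 0 < Real.log (n : ℝ) := Real.log_pos (by
      have : (3 : ℝ) ≤ n := by exact_mod_cast hn3.trans hn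
      linarith)
    unfold wm at h4
    rw [Real.exp_log hn1, Nat.floor_natCast, div_le_iff₀ hl] at h4
    refine h4.trans ?_
    calc C * Real.log n * Real.log n = C * Real.log n ^ 2 := by ring
      _ ≤ |C| * Real.log n ^ 2 := mul_le_mul_of_nonneg_right (le_abs_self C) (by positivity)
  obtain ⟨K, hK⟩ := abel_upper (abs_nonneg C) hn3 h1
  refine ⟨|K| + 2 * |C|, ?_⟩
  filter_upwards [eventually_ge_atTop (max 1 (Real.log n0))] with u hu
  have hu1 : 1 ≤ u := (le_max_left _ _).trans hu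
  have hu2 : Real.log n0 ≤ u := (le_max_right _ _).trans hu
  have hn00 : (0 : ℝ) < n0 := by
    have : 0 < n0 := by omega
    exact_mod_cast this
  have h2 : n0 ≤ ⌊Real.exp u⌋₊ := by
    refine Nat.le_floor ?_
    rwa [Real.log_le_iff_le_exp hn00] at hu2
  have h3 := hK _ h2
  have h4 : Real.log (⌊Real.exp u⌋₊ : ℝ) ≤ u := by
    have h5 : (0 : ℝ) < (⌊Real.exp u⌋₊ : ℝ) := by
      have : 0 < ⌊Real.exp u⌋₊ := by omega
      exact_mod_cast this
    rw [Real.log_le_iff_le_exp h5]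
    exact Nat.floor_le (Real.exp_pos u).le
  show ∑ n ∈ Finset.range (⌊Real.exp u⌋₊ + 1), d n ≤ _
  have h6 := le_abs_self K
  have h7 := abs_nonneg K
  have h8 := abs_nonneg C
  nlinarith

theorem wm_neg (d : ℕ → ℝ) (u : ℝ) : wm (fun n => -d n) u = -wm d u := by
  unfold wm
  simp only [mul_neg, Finset.sum_neg_distrib, neg_div]

theorem stp_neg (d : ℕ → ℝ) (u : ℝ) : stp (fun n => -d n) u = -stp d u := by
  unfold stp
  simp only [Finset.sum_neg_distrib]

/-- a lower bound for the sum of Mestre and Nagao excludes zeros -/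
theorem nz_of_mes (H : Full a b F r) {C : ℝ} (h : ∀ᶠ u : ℝ in atTop, -mes a b u ≤ C * u) :
    ∀ s : ℂ, 1 < s.re → F s ≠ 0 := by
  have h1 : ∀ᶠ u : ℝ in atTop, wm (dd a b) u ≤ (|C| + 1) * u := by
    filter_upwards [h, H.mes.eventually (gt_mem_nhds (show (1 / 2 : ℝ) < 1 by norm_num)),
      eventually_ge_atTop 1] with u h1 h2 h3
    have := le_abs_self C
    nlinarith
  obtain ⟨C', hC'⟩ := linear_of_wm h1
  refine fun s hs => no_zeros_of_linear H.lser (C := C') ?_ hs
  filter_upwards [hC'] with u hu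
  rw [← lgP_eq] at hu
  exact hu

theorem nz_of_mes_upper (H : Full a b F r) (hreal : ∀ s : ℝ, 1 < s → F s ≠ 0) {C : ℝ}
    (h : ∀ᶠ u : ℝ in atTop, mes a b u ≤ C * u) : ∀ s : ℂ, 1 < s.re → F s ≠ 0 := by
  have h1 : ∀ᶠ u : ℝ in atTop, wm (fun n => -dd a b n) u ≤ (|C| + 1) * u := by
    filter_upwards [h, H.mes.eventually (lt_mem_nhds (show (-1 : ℝ) < 1 / 2 by norm_num)),
      eventually_ge_atTop 1] with u h1 h2 h3
    rw [wm_neg]
    have := le_abs_self C
    nlinarith
  obtain ⟨C', hC'⟩ := linear_of_wm h1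
  refine fun s hs => no_zeros_of_linear_lower H.lser hreal (C := C') ?_ hs
  filter_upwards [hC'] with u hu
  rw [stp_neg, ← lgP_eq] at hu
  show -(C' * u) ≤ lgP a b u
  linarith

/-! ### The criteria -/

theorem Tail.of_close {g h : ℝ → ℝ} (hg : Tail g) (hd : Tendsto (fun u => h u - g u) atTop (𝓝 0)) :
    Tail h := by
  intro ε hε
  have h1 := hg (ε / 2) (by positivity)
  obtain ⟨U, hU⟩ := (Metric.tendsto_atTop.1 hd) (ε / 2) (by positivity)
  refine tendsto_of_tendsto_of_tendsto_of_le_of_le' tendsto_const_nhds h1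
    (Eventually.of_forall fun _ => zero_le) ?_
  filter_upwards [eventually_ge_atTop U] with A hA
  refine measure_mono ?_
  rintro v ⟨h2, h3⟩
  refine ⟨h2, ?_⟩
  have h4 := hU v (hA.trans h2.le)
  rw [Real.dist_eq, sub_zero] at h4
  have h5 := abs_add_le (h v - g v) (g v)
  rw [sub_add_cancel] at h5
  linarith

theorem tail_mes (H : Full a b F r) (hz : ∀ s : ℂ, 1 < s.re → F s ≠ 0) :
    Tail (fun u => mes a b u - (1 / 2 - r)) :=
  Tail.of_close (tail_dvu H.toHyp hz).neg (mes_dvu H hz)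

/-- bounded on bounded sets -/
theorem wm_bdd (c : ℕ → ℝ) (U : ℝ) : ∃ M : ℝ, ∀ u : ℝ, 1 ≤ u → u ≤ U → |wm c u| ≤ M := by
  refine ⟨∑ n ∈ Finset.range (⌊Real.exp U⌋₊ + 1), |Real.log n * c n|, fun u h1 h2 => ?_⟩
  unfold wm
  rw [abs_div, abs_of_pos (by linarith : 0 < u), div_le_iff₀ (by linarith)]
  have h3 : |∑ n ∈ Finset.range (⌊Real.exp u⌋₊ + 1), Real.log n * c n| ≤
      ∑ n ∈ Finset.range (⌊Real.exp U⌋₊ + 1), |Real.log n * c n| := by
    refine (Finset.abs_sum_le_sum_abs _ _).trans ?_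
    refine Finset.sum_le_sum_of_subset_of_nonneg ?_ fun _ _ _ => abs_nonneg _
    intro n hn
    rw [Finset.mem_range] at hn ⊢
    have : ⌊Real.exp u⌋₊ ≤ ⌊Real.exp U⌋₊ := Nat.floor_le_floor (Real.exp_le_exp.2 h2)
    omega
  have h4 : 0 ≤ ∑ n ∈ Finset.range (⌊Real.exp U⌋₊ + 1), |Real.log n * c n| :=
    Finset.sum_nonneg fun _ _ => abs_nonneg _
  nlinarith

theorem dvu_of_mes (H : Full a b F r) (hz : ∀ s : ℂ, 1 < s.re → F s ≠ 0)
    (h : Tendsto (fun u => mes a b u - (1 / 2 - r)) atTop (𝓝 0)) :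
    Tendsto (dvu a b F r) atTop (𝓝 0) := by
  have := (mes_dvu H hz).sub h
  rw [sub_zero] at this
  refine this.congr fun u => ?_
  ring

/-- additive increments, from below -/
theorem mes_add_lower (H : Full a b F r) {S : Set ℝ} (hS : S ⊆ Ioi 0) (hpos : volume S ≠ 0)
    (hK : ∀ h ∈ S, ∀ ε : ℝ, 0 < ε → ∀ᶠ u : ℝ in atTop, mes a b u ≤ mes a b (u + h) + ε) :
    (∀ s : ℂ, 1 < s.re → F s ≠ 0) ∧ Tendsto (dvu a b F r) atTop (𝓝 0) := by
  obtain ⟨h0, hh0⟩ := nonempty_of_measure_ne_zero hpos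
  obtain ⟨u0, hu0⟩ := eventually_atTop.1 (hK h0 hh0 1 one_pos)
  obtain ⟨C, hC⟩ := linear_of_add (D := fun u => -mes a b u) (K := 1) (u0 := u0) (hS hh0) (fun U => by
    obtain ⟨M, hM⟩ := wm_bdd (ap a b) U
    exact ⟨M, fun u h1 h2 => (neg_le_abs _).trans (hM u h1 h2)⟩) (fun u hu => by linarith [hu0 u hu])
  have hz := nz_of_mes H hC
  refine ⟨hz, dvu_of_mes H hz ?_⟩
  have h1 := add_lim (g := fun u => -(mes a b u - (1 / 2 - r))) (tail_mes H hz).neg hS hpos
    fun h hh ε hε => by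
      filter_upwards [hK h hh ε hε] with u hu
      linarith
  have h2 := h1.neg
  simp only [neg_neg, neg_zero] at h2
  exact h2

theorem mes_add_upper (H : Full a b F r) (hreal : ∀ s : ℝ, 1 < s → F s ≠ 0) {S : Set ℝ}
    (hS : S ⊆ Ioi 0) (hpos : volume S ≠ 0)
    (hK : ∀ h ∈ S, ∀ ε : ℝ, 0 < ε → ∀ᶠ u : ℝ in atTop, mes a b (u + h) ≤ mes a b u + ε) :
    (∀ s : ℂ, 1 < s.re → F s ≠ 0) ∧ Tendsto (dvu a b F r) atTop (𝓝 0) := by
  obtain ⟨h0, hh0⟩ := nonempty_of_measure_ne_zero hpos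
  obtain ⟨u0, hu0⟩ := eventually_atTop.1 (hK h0 hh0 1 one_pos)
  obtain ⟨C, hC⟩ := linear_of_add (D := fun u => mes a b u) (K := 1) (u0 := u0) (hS hh0) (fun U => by
    obtain ⟨M, hM⟩ := wm_bdd (ap a b) U
    exact ⟨M, fun u h1 h2 => (le_abs_self _).trans (hM u h1 h2)⟩) (fun u hu => hu0 u hu)
  have hz := nz_of_mes_upper H hreal hC
  exact ⟨hz, dvu_of_mes H hz (add_lim (tail_mes H hz) hS hpos fun h hh ε hε => by
    filter_upwards [hK h hh ε hε] with u hu
    linarith)⟩

theorem mes_mul_lower (H : Full a b F r) {S : Set ℝ} (hS : S ⊆ Ioi 1) (hpos : volume S ≠ 0)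
    (hK : ∀ l ∈ S, ∀ ε : ℝ, 0 < ε → ∀ᶠ u : ℝ in atTop, mes a b u ≤ mes a b (l * u) + ε) :
    (∀ s : ℂ, 1 < s.re → F s ≠ 0) ∧ Tendsto (dvu a b F r) atTop (𝓝 0) := by
  obtain ⟨h0, hh0⟩ := nonempty_of_measure_ne_zero hpos
  obtain ⟨u0, hu0⟩ := eventually_atTop.1 (hK h0 hh0 1 one_pos)
  obtain ⟨C, hC⟩ := linear_of_mul (D := fun u => -mes a b u) (K := 1) (u0 := u0) (hS hh0) (fun U => by
    obtain ⟨M, hM⟩ := wm_bdd (ap a b) U
    exact ⟨M, fun u h1 h2 => (neg_le_abs _).trans (hM u h1 h2)⟩) (fun u hu => by linarith [hu0 u hu])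
  have hz := nz_of_mes H hC
  refine ⟨hz, dvu_of_mes H hz ?_⟩
  have h1 := mul_lim (g := fun u => -(mes a b u - (1 / 2 - r))) (tail_mes H hz).neg hS hpos
    fun h hh ε hε => by
      filter_upwards [hK h hh ε hε] with u hu
      linarith
  have h2 := h1.neg
  simp only [neg_neg, neg_zero] at h2
  exact h2

theorem mes_mul_upper (H : Full a b F r) (hreal : ∀ s : ℝ, 1 < s → F s ≠ 0) {S : Set ℝ}
    (hS : S ⊆ Ioi 1) (hpos : volume S ≠ 0)
    (hK : ∀ l ∈ S, ∀ ε : ℝ, 0 < ε → ∀ᶠ u : ℝ in atTop, mes a b (l * u) ≤ mes a b u + ε) :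
    (∀ s : ℂ, 1 < s.re → F s ≠ 0) ∧ Tendsto (dvu a b F r) atTop (𝓝 0) := by
  obtain ⟨h0, hh0⟩ := nonempty_of_measure_ne_zero hpos
  obtain ⟨u0, hu0⟩ := eventually_atTop.1 (hK h0 hh0 1 one_pos)
  obtain ⟨C, hC⟩ := linear_of_mul (D := fun u => mes a b u) (K := 1) (u0 := u0) (hS hh0) (fun U => by
    obtain ⟨M, hM⟩ := wm_bdd (ap a b) U
    exact ⟨M, fun u h1 h2 => (le_abs_self _).trans (hM u h1 h2)⟩) (fun u hu => hu0 u hu)
  have hz := nz_of_mes_upper H hreal hC
  exact ⟨hz, dvu_of_mes H hz (mul_lim (tail_mes H hz) hS hpos fun h hh ε hε => by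
    filter_upwards [hK h hh ε hε] with u hu
    linarith)⟩

end Pool.Agent.Y686.TW
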