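import Pool.Agent.Y686.TW.Base

/-!
# The Birch and Swinnerton-Dyer product on a set of ratios of positive measure
-/

set_option autoImplicit false

open MeasureTheory Filter Topology Set Classical
open Pool.Agent.W263.BSD
open Pool.Agent.TH270.MS
open Pool.Agent.TH270.MS.EQ

namespace Pool.Agent.Y686.TW

variable {a b : ℤ} {F : ℂ → ℂ} {r : ℕ}

/-- `log P(e^u)` -/
noncomputable def lgP (a b : ℤ) (u : ℝ) : ℝ := Real.log (bsdProduct a b (Real.exp u))

theorem exp_lgP (u : ℝ) : Real.exp (lgP a b u) = bsdProduct a b (Real.exp u) :=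
  Real.exp_log (bsdProduct_pos _)

theorem dvu_eq' (H : Hyp a b F r) {u : ℝ} (hu : 1 ≤ u) : dvu a b F r u =
    lgP a b u - r * Real.log u - Real.log (TC F r) := dvu_eq H hu

theorem lgP_bdd (a b : ℤ) (U : ℝ) : ∃ M : ℝ, ∀ u : ℝ, 1 ≤ u → u ≤ U → lgP a b u ≤ M := by
  obtain ⟨M, hM⟩ := logP_bdd a b U
  exact ⟨M, fun u h1 h2 => (le_abs_self _).trans (hM u h1 h2)⟩

theorem neg_lgP_bdd (a b : ℤ) (U : ℝ) : ∃ M : ℝ, ∀ u : ℝ, 1 ≤ u → u ≤ U → -lgP a b u ≤ M := by
  obtain ⟨M, hM⟩ := logP_bdd a b U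
  exact ⟨M, fun u h1 h2 => (neg_le_abs _).trans (hM u h1 h2)⟩

/-! ### Null sets under the logarithm -/

theorem vol_log_image {H : Set ℝ} (hH : H ⊆ Ioi 1) (hpos : volume H ≠ 0) :
    volume (Real.log '' H) ≠ 0 := by
  intro h
  apply hpos
  have h1 : H = Real.exp '' (Real.log '' H) := by
    rw [← image_comp]
    ext x
    constructor
    · intro hx
      have hx0 : (0 : ℝ) < x := lt_trans one_pos (hH hx)
      exact ⟨x, hx, by simp [Real.exp_log hx0]⟩
    · rintro ⟨y, hy, rfl⟩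
      have hy0 : (0 : ℝ) < y := lt_trans one_pos (hH hy)
      simpa [Real.exp_log hy0] using hy
  rw [h1]
  exact addHaar_image_eq_zero_of_differentiableOn_of_addHaar_eq_zero volume
    Real.differentiable_exp.differentiableOn h

/-! ### Translations between `x` and `u = log x` -/

theorem ev_exp {p : ℝ → Prop} : (∀ᶠ x : ℝ in atTop, p x) ↔ ∀ᶠ u : ℝ in atTop, p (Real.exp u) := by
  constructor
  · exact fun h => Real.tendsto_exp_atTop.eventually h
  · intro h
    filter_upwards [Real.tendsto_log_atTop.eventually h, eventually_gt_atTop 0] with x hx hx0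
    rwa [Real.exp_log hx0] at hx

theorem le_mul_iff {K : ℝ} (hK : 0 < K) {u v : ℝ} :
    bsdProduct a b (Real.exp v) ≤ K * bsdProduct a b (Real.exp u) ↔
      lgP a b v ≤ lgP a b u + Real.log K := by
  have h1 := bsdProduct_pos (a := a) (b := b) (Real.exp v)
  have h2 := bsdProduct_pos (a := a) (b := b) (Real.exp u)
  rw [← Real.log_le_log_iff h1 (mul_pos hK h2), Real.log_mul hK.ne' h2.ne']
  unfold lgP
  rw [add_comm]

theorem exp_mul_add {h : ℝ} (hh : 0 < h) (u : ℝ) : h * Real.exp u = Real.exp (u + Real.log h) := by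
  rw [Real.exp_add, Real.exp_log hh, mul_comm]

theorem exp_rpow' (l u : ℝ) : Real.exp u ^ l = Real.exp (l * u) := by
  rw [← Real.exp_mul, mul_comm]

/-! ### Absence of zeros -/

theorem nz_add (H : Hyp a b F r) {h K : ℝ} (hh : 0 < h)
    (hK : ∀ᶠ u : ℝ in atTop, lgP a b (u + h) ≤ lgP a b u + K) : ∀ s : ℂ, 1 < s.re → F s ≠ 0 := by
  obtain ⟨u0, h0⟩ := eventually_atTop.1 hK
  obtain ⟨C, hC⟩ := linear_of_add (D := lgP a b) hh (lgP_bdd a b) h0
  exact fun s hs => no_zeros_of_linear H.lser hC hs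

theorem nz_mul (H : Hyp a b F r) {h K : ℝ} (hh : 1 < h)
    (hK : ∀ᶠ u : ℝ in atTop, lgP a b (h * u) ≤ lgP a b u + K) : ∀ s : ℂ, 1 < s.re → F s ≠ 0 := by
  obtain ⟨u0, h0⟩ := eventually_atTop.1 hK
  obtain ⟨C, hC⟩ := linear_of_mul (D := lgP a b) hh (lgP_bdd a b) h0
  exact fun s hs => no_zeros_of_linear H.lser hC hs

theorem nz_add_lower (H : Hyp a b F r) (hreal : ∀ s : ℝ, 1 < s → F s ≠ 0) {h K : ℝ} (hh : 0 < h)
    (hK : ∀ᶠ u : ℝ in atTop, lgP a b u ≤ lgP a b (u + h) + K) : ∀ s : ℂ, 1 < s.re → F s ≠ 0 := by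
  obtain ⟨u0, h0⟩ := eventually_atTop.1 hK
  obtain ⟨C, hC⟩ := linear_of_add (D := fun u => -lgP a b u) (K := K) (u0 := u0) hh
    (neg_lgP_bdd a b) (fun u hu => by linarith [h0 u hu])
  refine fun s hs => no_zeros_of_linear_lower H.lser hreal (C := C) ?_ hs
  filter_upwards [hC] with u hu
  show -(C * u) ≤ lgP a b u
  linarith

theorem nz_mul_lower (H : Hyp a b F r) (hreal : ∀ s : ℝ, 1 < s → F s ≠ 0) {h K : ℝ} (hh : 1 < h)
    (hK : ∀ᶠ u : ℝ in atTop, lgP a b u ≤ lgP a b (h * u) + K) : ∀ s : ℂ, 1 < s.re → F s ≠ 0 := by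
  obtain ⟨u0, h0⟩ := eventually_atTop.1 hK
  obtain ⟨C, hC⟩ := linear_of_mul (D := fun u => -lgP a b u) (K := K) (u0 := u0) hh
    (neg_lgP_bdd a b) (fun u hu => by linarith [h0 u hu])
  refine fun s hs => no_zeros_of_linear_lower H.lser hreal (C := C) ?_ hs
  filter_upwards [hC] with u hu
  show -(C * u) ≤ lgP a b u
  linarith

/-! ### Increments of the deviation -/

theorem log_add_sub {h : ℝ} :
    Tendsto (fun u : ℝ => Real.log (u + h) - Real.log u) atTop (𝓝 0) := by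
  have h1 : Tendsto (fun u : ℝ => Real.log (1 + h / u)) atTop (𝓝 (Real.log (1 + 0))) := by
    have h2 : Tendsto (fun u : ℝ => 1 + h / u) atTop (𝓝 (1 + 0)) :=
      (tendsto_const_nhds.div_atTop tendsto_id).const_add 1
    exact h2.log (by norm_num)
  rw [add_zero, Real.log_one] at h1
  refine h1.congr' ?_
  filter_upwards [eventually_gt_atTop 0, eventually_gt_atTop (-h)] with u hu hu2
  have h3 : 1 + h / u = (u + h) / u := by field_simp
  rw [h3, Real.log_div (by linarith) hu.ne']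

theorem dvu_add (H : Hyp a b F r) {h : ℝ} (hh : 0 ≤ h) :
    Tendsto (fun u : ℝ => (dvu a b F r (u + h) - dvu a b F r u) - (lgP a b (u + h) - lgP a b u))
      atTop (𝓝 0) := by
  have h1 := (log_add_sub (h := h)).const_mul (-(r : ℝ))
  rw [mul_zero] at h1
  refine h1.congr' ?_
  filter_upwards [eventually_ge_atTop 1] with u hu
  rw [dvu_eq' H hu, dvu_eq' H (by linarith)]
  ring

theorem dvu_mul (H : Hyp a b F r) {l : ℝ} (hl : 1 ≤ l) {u : ℝ} (hu : 1 ≤ u) :
    dvu a b F r (l * u) = dvu a b F r u + (lgP a b (l * u) - lgP a b u) - r * Real.log l := by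
  rw [dvu_eq' H hu, dvu_eq' H (by nlinarith), Real.log_mul (by linarith) (by linarith)]
  ring

/-! ### The criteria in terms of `u` -/

theorem lim_of_add (H : Hyp a b F r) {S : Set ℝ} (hS : S ⊆ Ioi 0) (hpos : volume S ≠ 0)
    (hK : ∀ h ∈ S, ∀ ε : ℝ, 0 < ε → ∀ᶠ u : ℝ in atTop, lgP a b (u + h) ≤ lgP a b u + ε) :
    (∀ s : ℂ, 1 < s.re → F s ≠ 0) ∧ Tendsto (dvu a b F r) atTop (𝓝 0) := by
  obtain ⟨h0, hh0⟩ := nonempty_of_measure_ne_zero hpos
  have hz := nz_add H (hS hh0) (hK h0 hh0 1 one_pos)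
  refine ⟨hz, add_lim (tail_dvu H hz) hS hpos fun h hh ε hε => ?_⟩
  have h1 := (dvu_add H (le_of_lt (hS hh))).eventually (gt_mem_nhds (show (0 : ℝ) < ε / 2 by positivity))
  filter_upwards [h1, hK h hh (ε / 2) (by positivity)] with u h2 h3
  linarith

theorem lim_of_add_lower (H : Hyp a b F r) (hreal : ∀ s : ℝ, 1 < s → F s ≠ 0) {S : Set ℝ}
    (hS : S ⊆ Ioi 0) (hpos : volume S ≠ 0)
    (hK : ∀ h ∈ S, ∀ ε : ℝ, 0 < ε → ∀ᶠ u : ℝ in atTop, lgP a b u ≤ lgP a b (u + h) + ε) :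
    (∀ s : ℂ, 1 < s.re → F s ≠ 0) ∧ Tendsto (dvu a b F r) atTop (𝓝 0) := by
  obtain ⟨h0, hh0⟩ := nonempty_of_measure_ne_zero hpos
  have hz := nz_add_lower H hreal (hS hh0) (hK h0 hh0 1 one_pos)
  have h0 := add_lim (g := fun u => -dvu a b F r u) (tail_dvu H hz).neg hS hpos
    fun h hh ε hε => ?_
  · have := h0.neg
    simp only [neg_neg, neg_zero] at this
    exact ⟨hz, this⟩
  have h1 := (dvu_add H (le_of_lt (hS hh))).eventually
    (lt_mem_nhds (show -(ε / 2) < (0 : ℝ) by linarith))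
  filter_upwards [h1, hK h hh (ε / 2) (by positivity)] with u h2 h3
  linarith

theorem lim_of_mul (H : Hyp a b F r) {S : Set ℝ} (hS : S ⊆ Ioi 1) (hpos : volume S ≠ 0)
    (hK : ∀ l ∈ S, ∀ ε : ℝ, 0 < ε → ∀ᶠ u : ℝ in atTop,
      lgP a b (l * u) ≤ lgP a b u + (r * Real.log l + ε)) :
    (∀ s : ℂ, 1 < s.re → F s ≠ 0) ∧ Tendsto (dvu a b F r) atTop (𝓝 0) := by
  obtain ⟨h0, hh0⟩ := nonempty_of_measure_ne_zero hpos
  have hz := nz_mul H (hS hh0) (hK h0 hh0 1 one_pos)
  refine ⟨hz, mul_lim (tail_dvu H hz) hS hpos fun h hh ε hε => ?_⟩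
  filter_upwards [hK h hh ε hε, eventually_ge_atTop 1] with u h3 h4
  rw [dvu_mul H (le_of_lt (hS hh)) h4]
  linarith

theorem lim_of_mul_lower (H : Hyp a b F r) (hreal : ∀ s : ℝ, 1 < s → F s ≠ 0) {S : Set ℝ}
    (hS : S ⊆ Ioi 1) (hpos : volume S ≠ 0)
    (hK : ∀ l ∈ S, ∀ ε : ℝ, 0 < ε → ∀ᶠ u : ℝ in atTop,
      lgP a b u + (r * Real.log l - ε) ≤ lgP a b (l * u)) :
    (∀ s : ℂ, 1 < s.re → F s ≠ 0) ∧ Tendsto (dvu a b F r) atTop (𝓝 0) := by
  obtain ⟨h0, hh0⟩ := nonempty_of_measure_ne_zero hpos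
  have hz := nz_mul_lower H hreal (hS hh0) (K := -(r * Real.log h0 - 1)) (by
    filter_upwards [hK h0 hh0 1 one_pos] with u hu
    linarith)
  have h0 := mul_lim (g := fun u => -dvu a b F r u) (tail_dvu H hz).neg hS hpos
    fun h hh ε hε => ?_
  · have := h0.neg
    simp only [neg_neg, neg_zero] at this
    exact ⟨hz, this⟩
  filter_upwards [hK h hh ε hε, eventually_ge_atTop 1] with u h3 h4
  rw [dvu_mul H (le_of_lt (hS hh)) h4]
  linarith

/-- if `P(x^l)/P(x)` converges, the limit is `l^r` -/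
theorem lim_unique (H : Hyp a b F r) {l c : ℝ} (hl : 1 < l)
    (h : Tendsto (fun u : ℝ => Real.exp (lgP a b (l * u) - lgP a b u)) atTop (𝓝 c)) :
    (∀ s : ℂ, 1 < s.re → F s ≠ 0) ∧ c = l ^ r := by
  have hz : ∀ s : ℂ, 1 < s.re → F s ≠ 0 := by
    refine nz_mul H hl (K := Real.log (|c| + 1)) ?_
    filter_upwards [h.eventually (gt_mem_nhds (show c < |c| + 1 by linarith [le_abs_self c]))] with u hu
    have h1 : 0 < |c| + 1 := by positivity
    rw [← Real.exp_log h1, Real.exp_lt_exp] at hu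
    linarith
  refine ⟨hz, ?_⟩
  have hl0 : 0 < l := by linarith
  have hlr : 0 < l ^ r := pow_pos hl0 r
  -- close to `l ^ r` frequently
  have h1 : ∀ δ : ℝ, 0 < δ → |c - l ^ r| ≤ δ := by
    intro δ hδ
    have h2 : Tendsto (fun t : ℝ => l ^ r * Real.exp t) (𝓝 0) (𝓝 (l ^ r)) := by
      have : Continuous fun t : ℝ => l ^ r * Real.exp t := by fun_prop
      have := this.tendsto 0
      rwa [Real.exp_zero, mul_one] at this
    obtain ⟨η, hη, h3⟩ := Metric.tendsto_nhds_nhds.1 h2 (δ / 2) (by positivity)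
    have h4 := freq_mul (tail_dvu H hz) hl (show 0 < η / 3 by positivity)
    have h5 := h.eventually (Metric.ball_mem_nhds c (show 0 < δ / 2 by positivity))
    obtain ⟨u, ⟨h6, h7⟩, h8, h9⟩ := (h4.and_eventually (h5.and (eventually_ge_atTop 1))).exists
    have h10 : lgP a b (l * u) - lgP a b u =
        r * Real.log l + (dvu a b F r (l * u) - dvu a b F r u) := by
      rw [dvu_mul H hl.le h9]; ring
    have h11 : Real.exp (lgP a b (l * u) - lgP a b u) =
        l ^ r * Real.exp (dvu a b F r (l * u) - dvu a b F r u) := by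
      rw [h10, Real.exp_add]
      congr 1
      rw [mul_comm, Real.exp_mul, Real.exp_log hl0, Real.rpow_natCast]
    have h12 : dist (dvu a b F r (l * u) - dvu a b F r u) 0 < η := by
      rw [Real.dist_eq, sub_zero]
      have := abs_sub (dvu a b F r (l * u)) (dvu a b F r u)
      linarith
    have h13 := h3 h12
    have h8' : dist (Real.exp (lgP a b (l * u) - lgP a b u)) c < δ / 2 := h8
    rw [h11] at h8'
    have h14 : dist c (l ^ r) < δ := by
      calc dist c (l ^ r) ≤ dist c (l ^ r * Real.exp (dvu a b F r (l * u) - dvu a b F r u)) +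
          dist (l ^ r * Real.exp (dvu a b F r (l * u) - dvu a b F r u)) (l ^ r) :=
            dist_triangle _ _ _
        _ < δ / 2 + δ / 2 := by rw [dist_comm c]; exact add_lt_add h8' h13
        _ = δ := by ring
    rw [Real.dist_eq] at h14
    exact h14.le
  have h2 : |c - l ^ r| ≤ 0 := le_of_forall_pos_le_add fun δ hδ => by linarith [h1 δ hδ]
  exact sub_eq_zero.1 (abs_nonpos_iff.1 h2)

/-! ### From the limit of the deviation -/

theorem tendsto_of_dvu (H : Hyp a b F r) (h : Tendsto (dvu a b F r) atTop (𝓝 0)) :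
    Tendsto (fun x : ℝ => bsdProduct a b x / Real.log x ^ r) atTop (𝓝 (TC F r)) := by
  have hT := TC_pos H.lser H.ord
  have h1 := (h.comp Real.tendsto_log_atTop).rexp.mul_const (TC F r)
  rw [Real.exp_zero, one_mul] at h1
  refine h1.congr' ?_
  filter_upwards [eventually_ge_atTop (Real.exp 1)] with x hx
  have hx0 : 0 < x := (Real.exp_pos 1).trans_le hx
  have hl : 1 ≤ Real.log x := by rwa [Real.le_log_iff_exp_le hx0]
  simp only [Function.comp_apply]
  rw [dvu_eq' H hl]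
  unfold lgP
  rw [Real.exp_log hx0, Real.exp_sub, Real.exp_sub, Real.exp_log (bsdProduct_pos x),
    Real.exp_log hT, mul_comm (r : ℝ), Real.exp_mul, Real.exp_log (by linarith), Real.rpow_natCast]
  field_simp

/-- an asymptotic formula gives the limits of the quotients -/
theorem quot_add {ρ C : ℝ} (hC : C ≠ 0)
    (h : Tendsto (fun x : ℝ => bsdProduct a b x / Real.log x ^ ρ) atTop (𝓝 C)) {k : ℝ} (hk : 0 < k) :
    Tendsto (fun x : ℝ => bsdProduct a b (k * x) / bsdProduct a b x) atTop (𝓝 1) := by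
  have h1 : Tendsto (fun x : ℝ => k * x) atTop atTop := tendsto_id.const_mul_atTop hk
  have h2 := (h.comp h1).div h hC
  rw [div_self hC] at h2
  have h3 : Tendsto (fun x : ℝ => Real.log (k * x) / Real.log x) atTop (𝓝 1) := by
    have h4 : Tendsto (fun x : ℝ => Real.log k / Real.log x + 1) atTop (𝓝 (0 + 1)) :=
      (tendsto_const_nhds.div_atTop Real.tendsto_log_atTop).add_const 1
    rw [zero_add] at h4
    refine h4.congr' ?_
    filter_upwards [eventually_gt_atTop 1] with x hx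
    have hl : 0 < Real.log x := Real.log_pos hx
    rw [Real.log_mul hk.ne' (by linarith)]
    field_simp
  have h5 : Tendsto (fun x : ℝ => (Real.log (k * x) / Real.log x) ^ ρ) atTop (𝓝 1) := by
    have := h3.rpow_const (p := ρ) (Or.inl one_ne_zero)
    rwa [Real.one_rpow] at this
  have h6 := h2.mul h5
  rw [one_mul] at h6
  refine h6.congr' ?_
  filter_upwards [eventually_gt_atTop 1, eventually_gt_atTop (1 / k)] with x hx hx2
  have hl : 0 < Real.log x := Real.log_pos hx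
  have hkx : 1 < k * x := by
    rw [div_lt_iff₀ hk] at hx2
    linarith
  have hl2 : 0 < Real.log (k * x) := Real.log_pos hkx
  simp only [Function.comp_apply, Pi.div_apply]
  rw [Real.div_rpow hl2.le hl.le]
  have e1 := (Real.rpow_pos_of_pos hl ρ).ne'
  have e2 := (Real.rpow_pos_of_pos hl2 ρ).ne'
  have e3 := (bsdProduct_pos (a := a) (b := b) x).ne'
  field_simp

theorem quot_mul {ρ C : ℝ} (hC : C ≠ 0)
    (h : Tendsto (fun x : ℝ => bsdProduct a b x / Real.log x ^ ρ) atTop (𝓝 C)) {l : ℝ} (hl0 : 0 < l) :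
    Tendsto (fun x : ℝ => bsdProduct a b (x ^ l) / bsdProduct a b x) atTop (𝓝 (l ^ ρ)) := by
  have h1 : Tendsto (fun x : ℝ => x ^ l) atTop atTop := tendsto_rpow_atTop hl0
  have h2 := ((h.comp h1).div h hC).mul_const (l ^ ρ)
  rw [div_self hC, one_mul] at h2
  refine h2.congr' ?_
  filter_upwards [eventually_gt_atTop 1] with x hx
  have hl : 0 < Real.log x := Real.log_pos hx
  simp only [Function.comp_apply, Pi.div_apply]
  rw [Real.log_rpow (by linarith), Real.mul_rpow hl0.le hl.le]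
  have e1 := (Real.rpow_pos_of_pos hl ρ).ne'
  have e2 := (Real.rpow_pos_of_pos hl0 ρ).ne'
  have e3 := (bsdProduct_pos (a := a) (b := b) x).ne'
  field_simp

end Pool.Agent.Y686.TW
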