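import Pool.Agent.TH941.Newform
import Pool.Agent.TH231.RieszInt

/-!
# Convergence of `∑ (a_p² - p) / p²`
-/

set_option autoImplicit false

open MeasureTheory Filter Topology Set Classical
open Pool.Agent.W263.BSD
open Pool.Agent.TH941

namespace Pool.Agent.Y686.TW

variable {c : ℕ → ℝ} {B : ℝ}

theorem log_le_two_sqrt {x : ℝ} (hx : 0 < x) : Real.log x ≤ 2 * √x := by
  have h1 : Real.log x = 2 * Real.log √x := by
    rw [Real.log_sqrt hx.le]; ring
  have h2 := Real.log_le_sub_one_of_pos (Real.sqrt_pos.2 hx)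
  rw [h1]
  linarith

/-- integrability of the powers -/
theorem int_pow {w s : ℝ} (hw : 0 < w) (hs : -1 < s) :
    IntegrableOn (fun t : ℝ => t ^ s * Real.exp (-(w * t))) (Ioi 0) := by
  have h1 := integrableOn_rpow_mul_exp_neg_mul_rpow (p := 1) (s := s) (b := w) hs one_pos hw
  refine h1.congr_fun (fun t _ => ?_) measurableSet_Ioi
  simp only [Real.rpow_one]
  ring_nf

theorem key_int {w K A : ℝ} (hw : 0 < w) :
    IntegrableOn (fun t : ℝ => (K + A * (w ^ (1 / 2 : ℝ) * t ^ ((3 / 2 : ℝ) - 1) +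
      (1 / w) ^ (1 / 2 : ℝ) * t ^ ((1 / 2 : ℝ) - 1))) * Real.exp (-(w * t))) (Ioi 0) ∧
    w * ∫ t in Ioi (0 : ℝ), (K + A * (w ^ (1 / 2 : ℝ) * t ^ ((3 / 2 : ℝ) - 1) +
      (1 / w) ^ (1 / 2 : ℝ) * t ^ ((1 / 2 : ℝ) - 1))) * Real.exp (-(w * t)) =
      K + A * (Real.Gamma (3 / 2) + Real.Gamma (1 / 2)) := by
  have i0 : IntegrableOn (fun t : ℝ => Real.exp (-(w * t))) (Ioi 0) := by
    have := int_pow hw (show (-1 : ℝ) < 0 by norm_num)
    refine this.congr_fun (fun t _ => ?_) measurableSet_Ioi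
    simp
  have i1 := int_pow hw (show (-1 : ℝ) < (3 / 2 : ℝ) - 1 by norm_num)
  have i2 := int_pow hw (show (-1 : ℝ) < (1 / 2 : ℝ) - 1 by norm_num)
  have e : (fun t : ℝ => (K + A * (w ^ (1 / 2 : ℝ) * t ^ ((3 / 2 : ℝ) - 1) +
      (1 / w) ^ (1 / 2 : ℝ) * t ^ ((1 / 2 : ℝ) - 1))) * Real.exp (-(w * t))) =
      fun t : ℝ => K * Real.exp (-(w * t)) +
        (A * w ^ (1 / 2 : ℝ) * (t ^ ((3 / 2 : ℝ) - 1) * Real.exp (-(w * t))) +
        A * (1 / w) ^ (1 / 2 : ℝ) * (t ^ ((1 / 2 : ℝ) - 1) * Real.exp (-(w * t)))) := by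
    funext t; ring
  rw [e]
  have j0 := i0.const_mul K
  have j1 := i1.const_mul (A * w ^ (1 / 2 : ℝ))
  have j2 := i2.const_mul (A * (1 / w) ^ (1 / 2 : ℝ))
  refine ⟨j0.add (j1.add j2), ?_⟩
  have h0 : ∫ t in Ioi (0 : ℝ), Real.exp (-(w * t)) = 1 / w := by
    have := Real.integral_rpow_mul_exp_neg_mul_Ioi (a := 1) (r := w) one_pos hw
    simpa using this
  have j12 : Integrable (fun t : ℝ => A * w ^ (1 / 2 : ℝ) * (t ^ ((3 / 2 : ℝ) - 1) * Real.exp (-(w * t))) +
      A * (1 / w) ^ (1 / 2 : ℝ) * (t ^ ((1 / 2 : ℝ) - 1) * Real.exp (-(w * t))))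
      (volume.restrict (Ioi 0)) := j1.add j2
  rw [integral_add j0 j12, integral_add j1 j2, integral_const_mul, integral_const_mul,
    integral_const_mul, h0, Real.integral_rpow_mul_exp_neg_mul_Ioi (by norm_num) hw,
    Real.integral_rpow_mul_exp_neg_mul_Ioi (by norm_num) hw]
  have e1 : w * (w ^ (1 / 2 : ℝ) * (1 / w) ^ (3 / 2 : ℝ)) = 1 := by
    rw [one_div w, Real.inv_rpow hw.le, ← Real.rpow_neg hw.le, ← Real.rpow_add hw]
    nth_rewrite 1 [← Real.rpow_one w]
    rw [← Real.rpow_add hw]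
    norm_num
  have e2 : w * ((1 / w) ^ (1 / 2 : ℝ) * (1 / w) ^ (1 / 2 : ℝ)) = 1 := by
    rw [← Real.rpow_add (by positivity)]
    norm_num
    exact mul_inv_cancel₀ hw.ne'
  calc w * (K * (1 / w) + (A * w ^ (1 / 2 : ℝ) * ((1 / w) ^ (3 / 2 : ℝ) * Real.Gamma (3 / 2)) +
        A * (1 / w) ^ (1 / 2 : ℝ) * ((1 / w) ^ (1 / 2 : ℝ) * Real.Gamma (1 / 2)))) =
      K * (w * (1 / w)) + A * ((w * (w ^ (1 / 2 : ℝ) * (1 / w) ^ (3 / 2 : ℝ))) * Real.Gamma (3 / 2) +
        (w * ((1 / w) ^ (1 / 2 : ℝ) * (1 / w) ^ (1 / 2 : ℝ))) * Real.Gamma (1 / 2)) := by ring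
    _ = _ := by
      rw [e1, e2, mul_one_div_cancel hw.ne']
      ring

theorem PS.bounded (hc : PS c B) {C0 : ℝ}
    (h : Tendsto (fun w : ℝ => ∑' n : ℕ, c n * (n : ℝ) ^ (-w)) (𝓝[>] 0) (𝓝 C0)) :
    ∃ M : ℝ, ∀ u, 0 < u → |stp c u| ≤ M := by
  obtain ⟨u0, h2, hs⟩ := hc.slow1 one_pos
  have hB := hc.pos
  set K : ℝ := ∑' n : ℕ, |c n| * (n : ℝ) ^ (-(1 : ℝ)) with hK
  have hK0 : 0 ≤ K := tsum_nonneg fun n => by positivity
  have hb : ∀ u : ℝ, |stp c u| ≤ K * Real.exp (1 * u) := fun u =>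
    stp_abs hc.zero (hc.summable one_pos) zero_le_one u
  set K1 : ℝ := K * Real.exp (1 * u0) with hK1
  have hb1 : ∀ t ≤ u0, |stp c t| ≤ K1 := fun t ht => (hb t).trans
    (mul_le_mul_of_nonneg_left (Real.exp_le_exp.2 (by linarith)) hK0)
  have hK10 : 0 ≤ K1 := (abs_nonneg _).trans (hb1 u0 le_rfl)
  -- pointwise bound
  have hpt : ∀ t u : ℝ, 0 < t → u0 ≤ u → |stp c t - stp c u| ≤
      (2 * K1 + 1) + 2 * B * (√(t / u) + √(u / t)) := by
    intro t u ht hu
    have hu0 : 0 < u := by linarith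
    have s1 := Real.sqrt_nonneg (t / u)
    have s2 := Real.sqrt_nonneg (u / t)
    rcases le_or_gt u0 t with h3 | h3
    · rcases le_total u t with h4 | h4
      · have h5 := hs u t hu h4
        have h6 := mul_le_mul_of_nonneg_left (log_le_two_sqrt (div_pos ht hu0)) hB.le
        nlinarith
      · have h5 := hs t u h3 h4
        rw [abs_sub_comm] at h5
        have h6 := mul_le_mul_of_nonneg_left (log_le_two_sqrt (div_pos hu0 ht)) hB.le
        nlinarith
    · have h5 := hs u0 u le_rfl hu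
      have h6 := mul_le_mul_of_nonneg_left (log_le_two_sqrt (div_pos hu0 (by linarith : 0 < u0))) hB.le
      have h7 : √(u / u0) ≤ √(u / t) :=
        Real.sqrt_le_sqrt (div_le_div_of_nonneg_left hu0.le ht h3.le)
      have h8 := hb1 t h3.le
      have h9 := hb1 u0 le_rfl
      have h10 : |stp c t - stp c u| ≤ |stp c t| + |stp c u0| + |stp c u - stp c u0| := by
        have e : stp c t - stp c u = stp c t + (-stp c u0) + (-(stp c u - stp c u0)) := by ring
        rw [e]
        refine (abs_add_three _ _ _).trans ?_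
        rw [abs_neg, abs_neg]
      nlinarith
  -- near zero the series is bounded
  obtain ⟨δ, hδ, hδ2⟩ := Metric.mem_nhdsWithin_iff.1 (h (Metric.ball_mem_nhds C0 one_pos))
  set U : ℝ := max u0 (2 / δ) with hU
  set M0 : ℝ := |C0| + 1 + ((2 * K1 + 1) + 2 * B * (Real.Gamma (3 / 2) + Real.Gamma (1 / 2))) with hM0
  have hbig : ∀ u, U ≤ u → |stp c u| ≤ M0 := by
    intro u hu
    have hu1 : u0 ≤ u := (le_max_left _ _).trans hu
    have hu2 : 2 / δ ≤ u := (le_max_right _ _).trans hu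
    have hu0 : 0 < u := by linarith
    set w : ℝ := 1 / u with hw
    have hw0 : 0 < w := by positivity
    have hwδ : w < δ := by
      rw [hw, div_lt_iff₀ hu0]
      rw [div_le_iff₀ hδ] at hu2
      nlinarith
    have hser : |∑' n : ℕ, c n * (n : ℝ) ^ (-w)| ≤ |C0| + 1 := by
      have h3 : w ∈ Metric.ball (0 : ℝ) δ ∩ Ioi 0 := by
        refine ⟨?_, hw0⟩
        rw [Metric.mem_ball, Real.dist_eq, sub_zero, abs_of_pos hw0]
        exact hwδ
      have h4 := hδ2 h3
      simp only [mem_preimage, Metric.mem_ball, Real.dist_eq] at h4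
      have h5 := abs_sub_abs_le_abs_sub (∑' n : ℕ, c n * (n : ℝ) ^ (-w)) C0
      linarith
    have e2 := (stp_hasSum hc.zero (fun _ h => hc.summable h) hw0).tsum_eq
    rw [e2] at hser
    have i1 : LInt (stp c) w := stp_LInt hc.zero (fun _ h => hc.summable h) hw0
    obtain ⟨k1, k2⟩ := key_int (K := 2 * K1 + 1) (A := 2 * B) hw0
    have i0 : IntegrableOn (fun t : ℝ => Real.exp (-(w * t))) (Ioi 0) := by
      have := int_pow hw0 (show (-1 : ℝ) < 0 by norm_num)
      refine this.congr_fun (fun t _ => ?_) measurableSet_Ioi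
      simp
    have h0 : ∫ t in Ioi (0 : ℝ), Real.exp (-(w * t)) = 1 / w := by
      have := Real.integral_rpow_mul_exp_neg_mul_Ioi (a := 1) (r := w) one_pos hw0
      simpa using this
    have e3 : w * lap (stp c) w - stp c u =
        w * ∫ t in Ioi (0 : ℝ), (stp c t - stp c u) * Real.exp (-(w * t)) := by
      have e4 : (fun t : ℝ => (stp c t - stp c u) * Real.exp (-(w * t))) =
          fun t : ℝ => stp c t * Real.exp (-(w * t)) - stp c u * Real.exp (-(w * t)) := by
        funext t; ring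
      rw [e4, integral_sub i1 (i0.const_mul _), integral_const_mul, h0, mul_sub]
      unfold lap
      congr 1
      field_simp
    have h6 : |w * lap (stp c) w - stp c u| ≤
        (2 * K1 + 1) + 2 * B * (Real.Gamma (3 / 2) + Real.Gamma (1 / 2)) := by
      rw [e3, abs_mul, abs_of_pos hw0, ← k2]
      refine mul_le_mul_of_nonneg_left ?_ hw0.le
      rw [← Real.norm_eq_abs]
      refine (norm_integral_le_of_norm_le k1 ?_)
      refine (ae_restrict_iff' measurableSet_Ioi).mpr (Eventually.of_forall fun t ht => ?_)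
      have ht0 : (0 : ℝ) < t := ht
      rw [norm_mul, Real.norm_eq_abs, Real.norm_of_nonneg (Real.exp_pos _).le]
      refine mul_le_mul_of_nonneg_right ?_ (Real.exp_pos _).le
      refine (hpt t u ht0 hu1).trans (le_of_eq ?_)
      congr 2
      have e5 : √(t / u) = w ^ (1 / 2 : ℝ) * t ^ ((3 / 2 : ℝ) - 1) := by
        rw [show (3 / 2 : ℝ) - 1 = 1 / 2 by norm_num, ← Real.mul_rpow hw0.le ht0.le,
          ← Real.sqrt_eq_rpow, hw]
        congr 1
        ring
      have e6 : √(u / t) = (1 / w) ^ (1 / 2 : ℝ) * t ^ ((1 / 2 : ℝ) - 1) := by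
        rw [show (1 / 2 : ℝ) - 1 = -(1 / 2) by norm_num, Real.rpow_neg ht0.le,
          ← Real.sqrt_eq_rpow, ← Real.sqrt_eq_rpow, hw, one_div_one_div,
          Real.sqrt_div hu0.le, div_eq_mul_inv]
      rw [e5, e6]
    have h7 := abs_sub_abs_le_abs_sub (stp c u) (w * lap (stp c) w)
    rw [abs_sub_comm] at h7
    rw [hM0]
    linarith
  refine ⟨max M0 (K * Real.exp (1 * U)), fun u _ => ?_⟩
  rcases le_total U u with h3 | h3
  · exact (hbig u h3).trans (le_max_left _ _)
  · refine ((hb u).trans ?_).trans (le_max_right _ _)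
    exact mul_le_mul_of_nonneg_left (Real.exp_le_exp.2 (by linarith)) hK0

/-- **The series converges.** -/
theorem PS.conv (hc : PS c B) {C0 : ℝ}
    (h : Tendsto (fun w : ℝ => ∑' n : ℕ, c n * (n : ℝ) ^ (-w)) (𝓝[>] 0) (𝓝 C0)) :
    Tendsto (stp c) atTop (𝓝 C0) := by
  obtain ⟨M, hM⟩ := PS.bounded hc h
  have hB := hc.pos
  refine tauber_limit (stp_meas c) (fun w hw => stp_LInt hc.zero (fun _ h => hc.summable h) hw) hM
    ?_ fun ε hε => ?_
  · refine h.congr' ?_
    filter_upwards [self_mem_nhdsWithin] with w hw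
    exact (stp_hasSum hc.zero (fun _ h => hc.summable h) hw).tsum_eq
  · obtain ⟨u0, h2, hs⟩ := hc.slow1 (show 0 < ε / 2 by positivity)
    refine ⟨ε / (2 * B), by positivity, u0, fun u v h3 h4 h5 => ?_⟩
    have hu : 0 < u := by linarith
    have h6 := (abs_le.1 (hs u v h3 h4)).2
    have h9 : B * Real.log (v / u) ≤ ε / 2 := by
      have e1 : v / u ≤ 1 + ε / (2 * B) := by rw [div_le_iff₀ hu]; exact h5
      have e2 : 0 < v / u := div_pos (by linarith) hu
      have e3 := Real.log_le_sub_one_of_pos e2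
      have e4 : Real.log (v / u) ≤ ε / (2 * B) := by linarith
      refine (mul_le_mul_of_nonneg_left e4 hB.le).trans (le_of_eq ?_)
      field_simp
    linarith

/-- the mean of a convergent function -/
theorem mean_tendsto {f : ℝ → ℝ} {C : ℝ} (hi : ∀ U : ℝ, 0 < U → IntervalIntegrable f volume 0 U)
    (h : Tendsto f atTop (𝓝 C)) : Tendsto (fun U : ℝ => (∫ v in (0 : ℝ)..U, f v) / U) atTop (𝓝 C) := by
  rw [Metric.tendsto_atTop]
  intro ε hε
  obtain ⟨A0, hA0⟩ := (Metric.tendsto_atTop.1 h) (ε / 2) (by positivity)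
  set A : ℝ := max A0 1 with hA
  have hA1 : 1 ≤ A := le_max_right _ _
  have hA' : 0 < A := by linarith
  have hAA : A0 ≤ A := le_max_left _ _
  set I : ℝ := |∫ v in (0 : ℝ)..A, (f v - C)| with hI
  refine ⟨max A (4 * I / ε + 1), fun U hU => ?_⟩
  have hU1 : A ≤ U := (le_max_left _ _).trans hU
  have hU2 : 4 * I / ε + 1 ≤ U := (le_max_right _ _).trans hU
  have hU0 : 0 < U := by linarith
  have hi2 : IntervalIntegrable (fun v => f v - C) volume 0 A := (hi A hA').sub intervalIntegrable_const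
  have hi3 : IntervalIntegrable (fun v => f v - C) volume A U := by
    have h1 : IntervalIntegrable f volume A U := (hi U hU0).mono_set (by
      rw [uIcc_of_le hU1, uIcc_of_le hU0.le]
      exact Icc_subset_Icc_left hA'.le)
    exact h1.sub intervalIntegrable_const
  have e1 : (∫ v in (0 : ℝ)..U, f v) / U - C = ((∫ v in (0 : ℝ)..A, (f v - C)) +
      ∫ v in A..U, (f v - C)) / U := by
    rw [intervalIntegral.integral_add_adjacent_intervals hi2 hi3,
      intervalIntegral.integral_sub (hi U hU0) intervalIntegrable_const,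
      intervalIntegral.integral_const, sub_zero, smul_eq_mul]
    field_simp
  have h2 : |∫ v in A..U, (f v - C)| ≤ ε / 2 * |U - A| := by
    rw [← Real.norm_eq_abs]
    refine intervalIntegral.norm_integral_le_of_norm_le_const fun v hv => ?_
    rw [uIoc_of_le hU1] at hv
    have := hA0 v (hAA.trans hv.1.le)
    rw [Real.dist_eq] at this
    exact this.le
  rw [Real.dist_eq, e1, abs_div, abs_of_pos hU0, div_lt_iff₀ hU0]
  have h3 : |U - A| ≤ U := by rw [abs_of_nonneg (by linarith)]; linarith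
  have h4 : I < ε / 4 * U := by
    have h5 : 4 * I / ε < U := by linarith
    rw [div_lt_iff₀ hε] at h5
    linarith
  calc |(∫ v in (0 : ℝ)..A, (f v - C)) + ∫ v in A..U, (f v - C)| ≤ I + ε / 2 * |U - A| :=
        (abs_add_le _ _).trans (add_le_add le_rfl h2)
    _ ≤ I + ε / 2 * U := by gcongr
    _ < ε * U := by nlinarith

/-- `(1/u) ∑ c_n log n → 0` -/
theorem log_mean (hc : Tendsto (stp c) atTop (𝓝 B)) (h0 : c 0 = 0) :
    Tendsto (fun U : ℝ => (∑ n ∈ Finset.range (⌊Real.exp U⌋₊ + 1), Real.log n * c n) / U) atTop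
      (𝓝 0) := by
  have key : ∀ U : ℝ, 0 < U → IntervalIntegrable (stp c) volume 0 U ∧
      (∑ n ∈ Finset.range (⌊Real.exp U⌋₊ + 1), Real.log n * c n) / U =
        stp c U - (∫ v in (0 : ℝ)..U, stp c v) / U := by
    intro U hU
    have h1 := Pool.Agent.TH231.RieszInt.t_riesz_integral (G := fun n => 1 ≤ n) (fun p hp => hp) c hU
    have h2 : ∀ (g : ℕ → ℝ) (v : ℝ), g 0 = 0 →
        ∑ p ∈ (Finset.range (⌊Real.exp v⌋₊ + 1)).filter (fun n => 1 ≤ n), g p =
        ∑ n ∈ Finset.range (⌊Real.exp v⌋₊ + 1), g n := by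
      intro g v hg
      refine Finset.sum_subset (Finset.filter_subset _ _) fun n hn hn2 => ?_
      have : n = 0 := by
        by_contra hne
        exact hn2 (Finset.mem_filter.2 ⟨hn, Nat.one_le_iff_ne_zero.2 hne⟩)
      rw [this, hg]
    have h3 : ∀ v : ℝ, ∑ p ∈ (Finset.range (⌊Real.exp v⌋₊ + 1)).filter (fun n => 1 ≤ n), c p =
        stp c v := fun v => h2 c v h0
    obtain ⟨h4, h5⟩ := h1
    simp only [h3] at h4 h5
    refine ⟨h4, ?_⟩
    rw [← h5, h2 (fun p => (1 - Real.log p / U) * c p) U (by simp [h0])]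
    unfold stp
    rw [Finset.sum_div, ← Finset.sum_sub_distrib]
    refine Finset.sum_congr rfl fun n _ => ?_
    field_simp
    ring
  have h6 := hc.sub (mean_tendsto (fun U hU => (key U hU).1) hc)
  rw [sub_self] at h6
  refine h6.congr' ?_
  filter_upwards [eventually_gt_atTop 0] with U hU
  rw [(key U hU).2]

end Pool.Agent.Y686.TW
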